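import Mathlib

/-!
# Basic definitions and scaling for the relative and absolute `p`-capacities
-/

open MeasureTheory Metric Set Filter Topology Module
open scoped ENNReal NNReal ContDiff

namespace CapInradius

variable {E : Type*} [NormedAddCommGroup E] [NormedSpace ℝ E] [MeasurableSpace E]

/-- The `p`-energy of a function. -/
noncomputable def en (μ : Measure E) (p : ℝ) (φ : E → ℝ) : ℝ≥0∞ :=
  ∫⁻ x, ‖fderiv ℝ φ x‖ₑ ^ p ∂μ

/-- Smooth functions with compact support contained in `U`. -/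
structure TF (U : Set E) (φ : E → ℝ) : Prop where
  smooth : ContDiff ℝ ∞ φ
  cs : HasCompactSupport φ
  supp : tsupport φ ⊆ U

/-- The `p`-capacity of `S` relative to `U`. -/
noncomputable def pc (μ : Measure E) (p : ℝ) (S U : Set E) : ℝ≥0∞ :=
  ⨅ φ ∈ {φ : E → ℝ | TF U φ ∧ ∀ x ∈ S, 1 ≤ φ x}, en μ p φ

theorem pc_le {μ : Measure E} {p : ℝ} {S U : Set E} {φ : E → ℝ} (h : TF U φ)
    (h1 : ∀ x ∈ S, 1 ≤ φ x) : pc μ p S U ≤ en μ p φ :=
  iInf₂_le φ ⟨h, h1⟩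

theorem exists_of_pc_lt {μ : Measure E} {p : ℝ} {S U : Set E} {a : ℝ≥0∞} (h : pc μ p S U < a) :
    ∃ φ : E → ℝ, TF U φ ∧ (∀ x ∈ S, 1 ≤ φ x) ∧ en μ p φ < a := by
  unfold pc at h
  rw [iInf_lt_iff] at h
  obtain ⟨φ, h⟩ := h
  rw [iInf_lt_iff] at h
  obtain ⟨⟨h1, h2⟩, h3⟩ := h
  exact ⟨φ, h1, h2, h3⟩

theorem le_pc {μ : Measure E} {p : ℝ} {S U : Set E} {a : ℝ≥0∞}
    (h : ∀ φ : E → ℝ, TF U φ → (∀ x ∈ S, 1 ≤ φ x) → a ≤ en μ p φ) : a ≤ pc μ p S U :=
  le_iInf₂ fun φ hφ => h φ hφ.1 hφ.2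

omit [MeasurableSpace E] in
theorem TF.mono {U V : Set E} {φ : E → ℝ} (h : TF U φ) (hUV : U ⊆ V) : TF V φ :=
  ⟨h.smooth, h.cs, h.supp.trans hUV⟩

theorem pc_mono_left {μ : Measure E} {p : ℝ} {S T U : Set E} (h : S ⊆ T) :
    pc μ p S U ≤ pc μ p T U :=
  le_pc fun _ h1 h2 => pc_le h1 fun x hx => h2 x (h hx)

theorem pc_anti_right {μ : Measure E} {p : ℝ} {S U V : Set E} (h : U ⊆ V) :
    pc μ p S V ≤ pc μ p S U :=
  le_pc fun _ h1 h2 => pc_le (h1.mono h) h2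

section scaling

variable [BorelSpace E] [FiniteDimensional ℝ E] (μ : Measure E) [μ.IsAddHaarMeasure]

theorem lintegral_comp_affine (f : E → ℝ≥0∞) (hf : Measurable f) (c : E) {s : ℝ} (hs : 0 < s) :
    ∫⁻ x, f (c + s • x) ∂μ = ENNReal.ofReal (s ^ (finrank ℝ E))⁻¹ * ∫⁻ x, f x ∂μ := by
  have h1 : ∫⁻ x, f (c + s • x) ∂μ = ∫⁻ y, f (c + y) ∂(Measure.map (s • ·) μ) := by
    rw [lintegral_map (by fun_prop) (measurable_const_smul s)]
  rw [h1, Measure.map_addHaar_smul μ hs.ne', lintegral_smul_measure, smul_eq_mul,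
    abs_of_pos (by positivity)]
  congr 1
  exact lintegral_add_left_eq_self (μ := μ) f c

theorem en_comp_affine {φ : E → ℝ} (hφ : ContDiff ℝ ∞ φ) (p : ℝ) (hp : 0 ≤ p) (c : E) {s : ℝ}
    (hs : 0 < s) :
    en μ p (fun x => φ (c + s • x)) =
      ENNReal.ofReal (s ^ (p - (finrank ℝ E : ℝ))) * en μ p φ := by
  have hd : ∀ x, fderiv ℝ (fun x => φ (c + s • x)) x = s • fderiv ℝ φ (c + s • x) := by
    intro x
    have h1 : HasFDerivAt φ (fderiv ℝ φ (c + s • x)) (c + s • x) :=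
      (hφ.differentiable (by simp)).differentiableAt.hasFDerivAt
    have h2 : HasFDerivAt (fun x : E => c + s • x) (s • ContinuousLinearMap.id ℝ E) x :=
      ((hasFDerivAt_id x).const_smul s).const_add c
    have h3 := h1.comp x h2
    rw [show (fun x => φ (c + s • x)) = φ ∘ (fun x : E => c + s • x) from rfl, h3.fderiv]
    ext v
    simp
  have hm : Measurable fun x => ‖fderiv ℝ φ x‖ₑ ^ p := by
    have : Continuous (fderiv ℝ φ) := hφ.continuous_fderiv (by simp)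
    exact (this.enorm.measurable).pow_const p
  unfold en
  have h4 : ∀ x, ‖fderiv ℝ (fun x => φ (c + s • x)) x‖ₑ ^ p =
      ENNReal.ofReal (s ^ p) * (fun y => ‖fderiv ℝ φ y‖ₑ ^ p) (c + s • x) := by
    intro x
    rw [hd, enorm_smul, ENNReal.mul_rpow_of_nonneg _ _ hp, Real.enorm_eq_ofReal hs.le,
      ENNReal.ofReal_rpow_of_pos hs]
  have hm2 : Measurable fun x : E => (fun y => ‖fderiv ℝ φ y‖ₑ ^ p) (c + s • x) :=
    hm.comp (g := fun y => ‖fderiv ℝ φ y‖ₑ ^ p) (f := fun x : E => c + s • x) (by fun_prop)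
  rw [lintegral_congr h4, lintegral_const_mul _ hm2,
    lintegral_comp_affine μ _ hm c hs, ← mul_assoc, ← ENNReal.ofReal_mul (by positivity)]
  congr 2
  rw [Real.rpow_sub hs, Real.rpow_natCast]
  rfl

omit [MeasurableSpace E] [BorelSpace E] [FiniteDimensional ℝ E] in
theorem TF.comp_affine {U : Set E} {φ : E → ℝ} (hφ : TF U φ) (c : E) {s : ℝ} (hs : 0 < s) :
    TF ((fun x : E => c + s • x) ⁻¹' U) (fun x => φ (c + s • x)) := by
  have hcont : Continuous (fun x : E => c + s • x) := by fun_prop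
  let e : E ≃ₜ E := (Homeomorph.smulOfNeZero s hs.ne').trans (Homeomorph.addLeft c)
  have he : ∀ x, e x = c + s • x := fun x => rfl
  refine ⟨hφ.smooth.comp (by fun_prop), ?_, ?_⟩
  · exact hφ.cs.comp_homeomorph e
  · have h1 : tsupport (φ ∘ e) = e ⁻¹' (tsupport φ) := tsupport_comp_eq_preimage φ e
    exact h1.le.trans (preimage_mono hφ.supp)

theorem pc_preimage_le (p : ℝ) (hp : 0 ≤ p) (S U : Set E) (c : E) {s : ℝ} (hs : 0 < s) :
    pc μ p ((fun x : E => c + s • x) ⁻¹' S) ((fun x : E => c + s • x) ⁻¹' U) ≤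
      ENNReal.ofReal (s ^ (p - (finrank ℝ E : ℝ))) * pc μ p S U := by
  have hc0 : ENNReal.ofReal (s ^ (p - (finrank ℝ E : ℝ))) ≠ 0 := by
    rw [Ne, ENNReal.ofReal_eq_zero, not_le]; positivity
  have hct : ENNReal.ofReal (s ^ (p - (finrank ℝ E : ℝ))) ≠ ⊤ := ENNReal.ofReal_ne_top
  rw [mul_comm, ← ENNReal.div_le_iff_le_mul (Or.inl hc0) (Or.inl hct)]
  refine le_pc fun φ h1 h2 => ?_
  rw [ENNReal.div_le_iff_le_mul (Or.inl hc0) (Or.inl hct), mul_comm,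
    ← en_comp_affine μ h1.smooth p hp c hs]
  exact pc_le (h1.comp_affine c hs) fun x hx => h2 _ hx

theorem pc_preimage (p : ℝ) (hp : 0 ≤ p) (S U : Set E) (c : E) {s : ℝ} (hs : 0 < s) :
    pc μ p ((fun x : E => c + s • x) ⁻¹' S) ((fun x : E => c + s • x) ⁻¹' U) =
      ENNReal.ofReal (s ^ (p - (finrank ℝ E : ℝ))) * pc μ p S U := by
  refine le_antisymm (pc_preimage_le μ p hp S U c hs) ?_
  have h := pc_preimage_le μ p hp ((fun x : E => c + s • x) ⁻¹' S)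
    ((fun x : E => c + s • x) ⁻¹' U) (-(s⁻¹ • c)) (inv_pos.2 hs)
  have h3 : ∀ T : Set E, (fun x : E => -(s⁻¹ • c) + s⁻¹ • x) ⁻¹'
      ((fun x : E => c + s • x) ⁻¹' T) = T := by
    intro T
    ext x
    simp [smul_smul, hs.ne']
  rw [h3, h3] at h
  have h4 : ENNReal.ofReal (s ^ (p - (finrank ℝ E : ℝ))) *
      ENNReal.ofReal (s⁻¹ ^ (p - (finrank ℝ E : ℝ))) = 1 := by
    rw [← ENNReal.ofReal_mul (by positivity), ← Real.mul_rpow hs.le (by positivity),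
      mul_inv_cancel₀ hs.ne', Real.one_rpow, ENNReal.ofReal_one]
  calc _ ≤ ENNReal.ofReal (s ^ (p - (finrank ℝ E : ℝ))) *
      (ENNReal.ofReal (s⁻¹ ^ (p - (finrank ℝ E : ℝ))) * _) := mul_le_mul' le_rfl h
    _ = _ := by rw [← mul_assoc, h4, one_mul]

end scaling

end CapInradius
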