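import Pool.Agent.MP_4d7ea7_an.Kappa

/-!
# Continuity of the capacity of balls, by a deformation
-/

open MeasureTheory Metric Set Filter Topology Module
open scoped ENNReal NNReal ContDiff

namespace CapInradius

variable {E : Type*} [NormedAddCommGroup E] [NormedSpace ℝ E] [MeasurableSpace E]
  [BorelSpace E] [FiniteDimensional ℝ E] (μ : Measure E) [μ.IsAddHaarMeasure]

omit [MeasurableSpace E] [BorelSpace E] [FiniteDimensional ℝ E] in
/-- near the identity, the determinant and the norm are close to one -/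
theorem exists_det_bound {θ : ℝ} (hθ : 1 < θ) (p : ℝ) (hp : 0 < p) :
    ∃ d : ℝ, 0 < d ∧ ∀ A : E →L[ℝ] E, ‖A - 1‖ ≤ d → ‖A‖ ^ p ≤ θ * |A.det| := by
  have h1 : Continuous fun A : E →L[ℝ] E => θ * |A.det| - ‖A‖ ^ p := by
    refine (continuous_const.mul ContinuousLinearMap.continuous_det.abs).sub ?_
    exact continuous_norm.rpow_const fun _ => Or.inr hp.le
  have h2 : ∀ᶠ A in 𝓝 (1 : E →L[ℝ] E), 0 < θ * |A.det| - ‖A‖ ^ p := by
    refine (h1.tendsto 1).eventually_const_lt ?_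
    have h3 : ‖(1 : E →L[ℝ] E)‖ ≤ 1 := ContinuousLinearMap.norm_id_le
    have h4 : ‖(1 : E →L[ℝ] E)‖ ^ p ≤ 1 := Real.rpow_le_one (norm_nonneg _) h3 hp.le
    have h5 : (1 : E →L[ℝ] E).det = 1 := by
      change LinearMap.det ((1 : E →L[ℝ] E) : E →ₗ[ℝ] E) = 1
      exact LinearMap.det_id
    rw [h5, abs_one, mul_one]
    linarith
  obtain ⟨d, hd, h⟩ := Metric.eventually_nhds_iff.1 h2
  refine ⟨d / 2, by positivity, fun A hA => ?_⟩
  have h6 := h (y := A) (by rw [dist_eq_norm]; linarith)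
  linarith

omit [FiniteDimensional ℝ E] [MeasurableSpace E] [BorelSpace E] in
theorem exists_fderiv_bound {F : Type*} [NormedAddCommGroup F] [NormedSpace ℝ F] {X : E → F}
    (hX : ContDiff ℝ ∞ X) (hc : HasCompactSupport X) :
    ∃ C : ℝ, 0 < C ∧ ∀ x, ‖fderiv ℝ X x‖ ≤ C := by
  obtain ⟨C, hC⟩ := (hc.fderiv ℝ).exists_bound_of_continuous (hX.continuous_fderiv (by simp))
  exact ⟨max C 1, lt_max_of_lt_right one_pos, fun x => (hC x).trans (le_max_left _ _)⟩

theorem pc_closedBall_le {θ : ℝ} (hθ : 1 < θ) (p : ℝ) (hp : 0 < p) {U : Set E}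
    (hU : ball (0 : E) 2 ⊆ U) :
    ∃ e₀ : ℝ, 0 < e₀ ∧ ∀ e : ℝ, 0 < e → e ≤ e₀ →
      pc μ p (closedBall (0 : E) 1) U ≤ ENNReal.ofReal θ * pc μ p (closedBall (0 : E) (1 - e)) U := by
  obtain ⟨d, hd, hdet⟩ := exists_det_bound (E := E) hθ p hp
  obtain ⟨η, h1, h2, h3, h4, h5⟩ := exists_bump (0 : E) (r := 1) (R := 3 / 2) (by norm_num)
    (by norm_num) ((closedBall_subset_ball (by norm_num)).trans hU)
  set X : E → E := fun x => η x • x with hX
  have hXs : ContDiff ℝ ∞ X := h1.smooth.smul contDiff_id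
  have hXc : HasCompactSupport X := h1.cs.smul_right
  obtain ⟨C, hC, hCb⟩ := exists_fderiv_bound hXs hXc
  have hXd : ∀ x, HasFDerivAt X (fderiv ℝ X x) x := fun x =>
    (hXs.differentiable (by simp)).differentiableAt.hasFDerivAt
  have hLip : ∀ x y, ‖X x - X y‖ ≤ C * ‖x - y‖ := fun x y =>
    (convex_univ).norm_image_sub_le_of_norm_fderiv_le
      (fun z _ => (hXs.differentiable (by simp)).differentiableAt) (fun z _ => hCb z)
      (mem_univ y) (mem_univ x)
  refine ⟨min 1 (min (d / C) (1 / (2 * C))), lt_min one_pos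
    (lt_min (by positivity) (by positivity)), fun e he hle' => ?_⟩
  have hle1 : e ≤ 1 := hle'.trans (min_le_left _ _)
  have hle : e ≤ min (d / C) (1 / (2 * C)) := hle'.trans (min_le_right _ _)
  have he1 : e * C ≤ d := by
    have := hle.trans (min_le_left _ _)
    rwa [le_div_iff₀ hC] at this
  have he2 : e * C ≤ 1 / 2 := by
    have := hle.trans (min_le_right _ _)
    rw [le_div_iff₀ (by positivity)] at this
    linarith
  set Ψ : E → E := fun x => x - e • X x with hΨ
  have hΨd : ∀ x, HasFDerivAt Ψ (1 - e • fderiv ℝ X x) x := fun x =>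
    (hasFDerivAt_id x).sub ((hXd x).const_smul e)
  have hΨn : ∀ x, ‖(1 - e • fderiv ℝ X x) - 1‖ ≤ d := by
    intro x
    rw [sub_sub_cancel_left, norm_neg, norm_smul, Real.norm_eq_abs, abs_of_pos he]
    exact (mul_le_mul_of_nonneg_left (hCb x) he.le).trans he1
  have hinj : Function.Injective Ψ := by
    intro x y hxy
    have h6 : x - y = e • (X x - X y) := by
      have h0 : x - e • X x = y - e • X y := hxy
      calc x - y = (x - e • X x) - (y - e • X y) + (e • X x - e • X y) := by abel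
        _ = e • (X x - X y) := by rw [h0, smul_sub]; abel
    have h7 : ‖x - y‖ ≤ e * (C * ‖x - y‖) := by
      conv_lhs => rw [h6]
      rw [norm_smul, Real.norm_eq_abs, abs_of_pos he]
      exact mul_le_mul_of_nonneg_left (hLip x y) he.le
    have h8 : ‖x - y‖ ≤ 1 / 2 * ‖x - y‖ := by
      refine h7.trans ?_
      rw [← mul_assoc]
      exact mul_le_mul_of_nonneg_right he2 (norm_nonneg _)
    have h9 : ‖x - y‖ = 0 := le_antisymm (by linarith) (norm_nonneg _)
    rwa [norm_sub_eq_zero_iff] at h9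
  have hΨs : ContDiff ℝ ∞ Ψ := contDiff_id.sub (hXs.const_smul e)
  have hc0 : ENNReal.ofReal θ ≠ 0 := by
    rw [Ne, ENNReal.ofReal_eq_zero, not_le]; linarith
  rw [mul_comm, ← ENNReal.div_le_iff_le_mul (Or.inl hc0) (Or.inl ENNReal.ofReal_ne_top)]
  refine le_pc fun v hv hv1 => ?_
  rw [ENNReal.div_le_iff_le_mul (Or.inl hc0) (Or.inl ENNReal.ofReal_ne_top), mul_comm]
  have hsub : tsupport (fun x => v (Ψ x)) ⊆ closedBall (0 : E) (3 / 2) ∪ tsupport v := by
    refine closure_minimal ?_ (isClosed_closedBall.union (isClosed_tsupport v))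
    intro x hx
    by_cases hx1 : x ∈ closedBall (0 : E) (3 / 2)
    · exact Or.inl hx1
    · right
      rw [← h5] at hx1
      have h6 : η x = 0 := image_eq_zero_of_notMem_tsupport hx1
      have h7 : Ψ x = x := by simp [hΨ, hX, h6]
      have h8 : v (Ψ x) ≠ 0 := hx
      rw [h7] at h8
      exact subset_tsupport v h8
  have hT : TF U (fun x => v (Ψ x)) := by
    refine ⟨hv.smooth.comp hΨs, ?_, hsub.trans (union_subset (h5 ▸ h1.supp) hv.supp)⟩
    exact ((isCompact_closedBall _ _).union hv.cs).of_isClosed_subset (isClosed_tsupport _) hsub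
  refine (pc_le hT fun x hx => hv1 _ ?_).trans ?_
  · have h6 : Ψ x = (1 - e) • x := by simp [hΨ, hX, h2 x hx, sub_smul]
    rw [mem_closedBall_zero_iff] at hx ⊢
    rw [h6, norm_smul, Real.norm_eq_abs, abs_of_nonneg (by linarith)]
    nlinarith [norm_nonneg x]
  · unfold en
    have hfd : ∀ x, fderiv ℝ (fun x => v (Ψ x)) x =
        (fderiv ℝ v (Ψ x)).comp (1 - e • fderiv ℝ X x) := fun x =>
      (((hv.smooth.differentiable (by simp)).differentiableAt.hasFDerivAt).comp x (hΨd x)).fderiv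
    have hle2 : ∀ x, ‖fderiv ℝ (fun x => v (Ψ x)) x‖ₑ ^ p ≤ ENNReal.ofReal θ *
        (ENNReal.ofReal |(1 - e • fderiv ℝ X x).det| * ‖fderiv ℝ v (Ψ x)‖ₑ ^ p) := by
      intro x
      have h6 := hdet _ (hΨn x)
      rw [hfd x, ← mul_assoc, ← ENNReal.ofReal_mul (by linarith)]
      calc ‖(fderiv ℝ v (Ψ x)).comp (1 - e • fderiv ℝ X x)‖ₑ ^ p
          ≤ (‖fderiv ℝ v (Ψ x)‖ₑ * ‖1 - e • fderiv ℝ X x‖ₑ) ^ p :=
            ENNReal.rpow_le_rpow (ContinuousLinearMap.opENorm_comp_le _ _) hp.le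
        _ = ‖1 - e • fderiv ℝ X x‖ₑ ^ p * ‖fderiv ℝ v (Ψ x)‖ₑ ^ p := by
            rw [ENNReal.mul_rpow_of_nonneg _ _ hp.le, mul_comm]
        _ ≤ _ := by
            refine mul_le_mul' ?_ le_rfl
            rw [← ofReal_norm, ENNReal.ofReal_rpow_of_nonneg (norm_nonneg _) hp.le]
            exact ENNReal.ofReal_le_ofReal h6
    refine (lintegral_mono hle2).trans ?_
    rw [lintegral_const_mul' _ _ ENNReal.ofReal_ne_top]
    refine mul_le_mul' le_rfl ?_
    have h7 := lintegral_image_eq_lintegral_abs_det_fderiv_mul μ MeasurableSet.univ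
      (fun x _ => (hΨd x).hasFDerivWithinAt) hinj.injOn (fun y => ‖fderiv ℝ v y‖ₑ ^ p)
    rw [setLIntegral_univ] at h7
    rw [← h7]
    exact setLIntegral_le_lintegral _ _

end CapInradius
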