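import Pool.Agent.MP_4d7ea7_an.Basic

/-!
# The capacity of a ball is finite and positive
-/

open MeasureTheory Metric Set Filter Topology Module
open scoped ENNReal NNReal ContDiff

namespace CapInradius

variable {E : Type*} [NormedAddCommGroup E] [NormedSpace ℝ E] [MeasurableSpace E]
  [BorelSpace E] [FiniteDimensional ℝ E] (μ : Measure E) [μ.IsAddHaarMeasure]

omit [BorelSpace E] [FiniteDimensional ℝ E] [μ.IsAddHaarMeasure] in
theorem en_eq_eLpNorm' (p : ℝ) (hp : 0 < p) (φ : E → ℝ) :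
    en μ p φ = (eLpNorm' (fderiv ℝ φ) p μ) ^ p := by
  unfold en eLpNorm'
  rw [← ENNReal.rpow_mul, one_div, inv_mul_cancel₀ hp.ne', ENNReal.rpow_one]

omit [NormedSpace ℝ E] [FiniteDimensional ℝ E] in
theorem lintegral_lt_top_of_cont {F : Type*} [NormedAddCommGroup F] {f : E → F}
    (hf : Continuous f) (hc : HasCompactSupport f) (p : ℝ) (hp : 0 < p) :
    ∫⁻ x, ‖f x‖ₑ ^ p ∂μ < ⊤ := by
  have h1 : MemLp f (ENNReal.ofReal p) μ := hf.memLp_of_hasCompactSupport hc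
  have h2 := lintegral_rpow_enorm_lt_top_of_eLpNorm_lt_top
    (by rw [Ne, ENNReal.ofReal_eq_zero, not_le]; exact hp) ENNReal.ofReal_ne_top h1.2
  rwa [ENNReal.toReal_ofReal hp.le] at h2

theorem TF.en_lt_top {U : Set E} {φ : E → ℝ} (h : TF U φ) (p : ℝ) (hp : 0 < p) :
    en μ p φ < ⊤ :=
  lintegral_lt_top_of_cont μ (h.smooth.continuous_fderiv (by simp)) (h.cs.fderiv ℝ) p hp

omit [MeasurableSpace E] [BorelSpace E] in
theorem exists_bump (c : E) {r R : ℝ} (hr : 0 < r) (hR : r < R) {U : Set E}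
    (hU : closedBall c R ⊆ U) :
    ∃ η : E → ℝ, TF U η ∧ (∀ x ∈ closedBall c r, η x = 1) ∧ (∀ x, 0 ≤ η x) ∧ (∀ x, η x ≤ 1) ∧
      tsupport η = closedBall c R := by
  let f : ContDiffBump c := ⟨r, R, hr, hR⟩
  refine ⟨f, ⟨f.contDiff, f.hasCompactSupport, ?_⟩, fun x hx => f.one_of_mem_closedBall hx,
    fun x => f.nonneg, fun x => f.le_one, f.tsupport_eq⟩
  rw [f.tsupport_eq]
  exact hU

theorem pc_lt_top (p : ℝ) (hp : 0 < p) {U : Set E} (hU : ball (0 : E) 2 ⊆ U) :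
    pc μ p (closedBall 0 1) U < ⊤ := by
  obtain ⟨η, h1, h2, -⟩ := exists_bump (0 : E) (r := 1) (R := 3 / 2) (by norm_num) (by norm_num)
    ((closedBall_subset_ball (by norm_num)).trans hU)
  exact (pc_le h1 fun x hx => (h2 x hx).ge).trans_lt (h1.en_lt_top μ p hp)

theorem pc_pos (p : ℝ) (hp : 1 < p) (hpN : p < finrank ℝ E) (U : Set E) :
    0 < pc μ p (closedBall 0 1) U := by
  set n : ℝ := (finrank ℝ E : ℝ) with hn
  have hp0 : 0 < p := by linarith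
  have hn0 : 0 < n := by linarith
  have hq : 0 < p⁻¹ - n⁻¹ := by
    rw [sub_pos]
    exact inv_strictAnti₀ hp0 hpN
  set p₁ : ℝ≥0 := ⟨p, hp0.le⟩ with hp₁
  set q : ℝ≥0 := ⟨(p⁻¹ - n⁻¹)⁻¹, (inv_pos.2 hq).le⟩ with hq₁
  set C := SNormLESNormFDerivOfEqConst ℝ μ (p₁ : ℝ) with hC
  have hnfin : 0 < finrank ℝ E := by
    have : (0 : ℝ) < finrank ℝ E := hn0
    exact_mod_cast this
  have hqr : 0 < (q : ℝ) := inv_pos.2 hq
  have hq0 : (q : ℝ≥0∞) ≠ 0 := by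
    rw [Ne, ENNReal.coe_eq_zero]
    intro h
    rw [h] at hqr
    simp at hqr
  have hqt : (q : ℝ≥0∞) ≠ ⊤ := ENNReal.coe_ne_top
  have hB : 0 < μ (closedBall (0 : E) 1) := measure_closedBall_pos μ _ one_pos
  have hBt : μ (closedBall (0 : E) 1) < ⊤ := measure_closedBall_lt_top
  set b := μ (closedBall (0 : E) 1) ^ (1 / (q : ℝ)) with hb
  have hb0 : 0 < b := ENNReal.rpow_pos hB hBt.ne
  have hres : 0 < (b / C) ^ p :=
    ENNReal.rpow_pos_of_nonneg (ENNReal.div_pos hb0.ne' ENNReal.coe_ne_top) hp0.le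
  refine hres.trans_le (le_pc fun φ h1 h2 => ?_)
  have h3 := eLpNorm_le_eLpNorm_fderiv_of_eq (μ := μ) (F := ℝ)
    (h1.smooth.of_le (by exact_mod_cast le_top)) h1.cs
    (p := p₁) (p' := q) (by exact_mod_cast hp.le) hnfin (by
      change ((p⁻¹ - n⁻¹)⁻¹)⁻¹ = p⁻¹ - n⁻¹
      rw [inv_inv])
  have hp₁0 : (p₁ : ℝ≥0∞) ≠ 0 := by
    rw [Ne, ENNReal.coe_eq_zero]
    intro h
    have : (p₁ : ℝ) = 0 := by rw [h]; rfl
    exact hp0.ne' this
  rw [eLpNorm_eq_lintegral_rpow_enorm_toReal hq0 hqt,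
    eLpNorm_eq_lintegral_rpow_enorm_toReal hp₁0 ENNReal.coe_ne_top,
    ENNReal.coe_toReal, ENNReal.coe_toReal] at h3
  have h4 : b ≤ (∫⁻ x, ‖φ x‖ₑ ^ (q : ℝ) ∂μ) ^ (1 / (q : ℝ)) := by
    refine ENNReal.rpow_le_rpow ?_ (by positivity)
    calc μ (closedBall (0 : E) 1) = ∫⁻ x in closedBall (0 : E) 1, 1 ∂μ := by simp
      _ ≤ ∫⁻ x in closedBall (0 : E) 1, ‖φ x‖ₑ ^ (q : ℝ) ∂μ := by
        refine setLIntegral_mono' measurableSet_closedBall fun x hx => ?_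
        refine ENNReal.one_le_rpow ?_ hqr
        have := h2 x hx
        rw [Real.enorm_eq_ofReal (by linarith), ENNReal.one_le_ofReal]
        exact this
      _ ≤ _ := setLIntegral_le_lintegral _ _
  have h5 : b / C ≤ (∫⁻ x, ‖fderiv ℝ φ x‖ₑ ^ p ∂μ) ^ (1 / p) :=
    ENNReal.div_le_of_le_mul' (h4.trans h3)
  calc (b / C) ^ p ≤ ((∫⁻ x, ‖fderiv ℝ φ x‖ₑ ^ p ∂μ) ^ (1 / p)) ^ p :=
        ENNReal.rpow_le_rpow h5 hp0.le
    _ = en μ p φ := by
      rw [← ENNReal.rpow_mul, one_div, inv_mul_cancel₀ hp0.ne', ENNReal.rpow_one]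
      rfl

end CapInradius
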