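import Pool.Agent.MP_4d7ea7_an.Basic

/-!
# A Poincare inequality on balls
-/

open MeasureTheory Metric Set Filter Topology Module
open scoped ENNReal NNReal ContDiff

namespace CapInradius

variable {E : Type*} [NormedAddCommGroup E] [NormedSpace ℝ E] [MeasurableSpace E]
  [BorelSpace E] [FiniteDimensional ℝ E] (μ : Measure E) [μ.IsAddHaarMeasure]

omit [MeasurableSpace E] [BorelSpace E] [FiniteDimensional ℝ E] in
theorem pointwise_path {u : E → ℝ} (hu : ContDiff ℝ ∞ u) {p : ℝ} (hp : 1 ≤ p) (x y : E) :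
    ‖u x - u y‖ₑ ^ p ≤
      ‖x - y‖ₑ ^ p * ∫⁻ t in Icc (0 : ℝ) 1, ‖fderiv ℝ u (y + t • (x - y))‖ₑ ^ p := by
  have hp0 : 0 < p := by linarith
  set f : ℝ → ℝ := fun t => u (y + t • (x - y)) with hf
  have hfs : ContDiff ℝ ∞ f := hu.comp (by fun_prop)
  have h1 := enorm_sub_le_lintegral_deriv_of_contDiffOn_Icc (f := f) (a := 0) (b := 1)
    ((hfs.of_le (by exact_mod_cast le_top)).contDiffOn) zero_le_one
  have h2 : ∀ t, deriv f t = fderiv ℝ u (y + t • (x - y)) (x - y) := by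
    intro t
    have h3 : HasDerivAt (fun t : ℝ => y + t • (x - y)) (x - y) t := by
      simpa using ((hasDerivAt_id t).smul_const (x - y)).const_add y
    exact (((hu.differentiable (by simp)).differentiableAt.hasFDerivAt).comp_hasDerivAt t h3).deriv
  have h4 : ‖u x - u y‖ₑ ≤ ‖x - y‖ₑ * ∫⁻ t in Icc (0 : ℝ) 1,
      ‖fderiv ℝ u (y + t • (x - y))‖ₑ := by
    have h5 : f 1 - f 0 = u x - u y := by simp [hf]
    rw [h5] at h1
    refine h1.trans ?_
    rw [← lintegral_const_mul' _ _ enorm_ne_top]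
    refine lintegral_mono fun t => ?_
    rw [h2, mul_comm]
    exact ContinuousLinearMap.le_opENorm _ _
  have hprob : IsProbabilityMeasure (volume.restrict (Icc (0 : ℝ) 1)) := ⟨by simp⟩
  have hcont : Continuous fun t : ℝ => fderiv ℝ u (y + t • (x - y)) :=
    (hu.continuous_fderiv (by simp)).comp (by fun_prop)
  have h6 := eLpNorm'_le_eLpNorm'_of_exponent_le (p := 1) (q := p) one_pos hp
    (volume.restrict (Icc (0 : ℝ) 1)) hcont.aestronglyMeasurable
  unfold eLpNorm' at h6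
  simp only [ENNReal.rpow_one, div_one] at h6
  calc ‖u x - u y‖ₑ ^ p ≤ (‖x - y‖ₑ * ∫⁻ t in Icc (0 : ℝ) 1,
        ‖fderiv ℝ u (y + t • (x - y))‖ₑ) ^ p := ENNReal.rpow_le_rpow h4 hp0.le
    _ ≤ (‖x - y‖ₑ * (∫⁻ t in Icc (0 : ℝ) 1,
        ‖fderiv ℝ u (y + t • (x - y))‖ₑ ^ p) ^ (1 / p)) ^ p :=
        ENNReal.rpow_le_rpow (mul_le_mul' le_rfl h6) hp0.le
    _ = _ := by
      rw [ENNReal.mul_rpow_of_nonneg _ _ hp0.le, ← ENNReal.rpow_mul, one_div,
        inv_mul_cancel₀ hp0.ne', ENNReal.rpow_one]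

theorem lintegral_segment_le {F : E → ℝ≥0∞} (hF : Measurable F) (x₀ : E) (r : ℝ) {s : ℝ}
    (hs : 1 / 2 ≤ s) (hs1 : s ≤ 1) {z : E} (hz : z ∈ ball x₀ r) :
    ∫⁻ x in ball x₀ r, F ((1 - s) • z + s • x) ∂μ ≤
      2 ^ (finrank ℝ E) * ∫⁻ x in ball x₀ r, F x ∂μ := by
  have hs0 : 0 < s := by linarith
  rw [← lintegral_indicator measurableSet_ball]
  calc ∫⁻ x, (ball x₀ r).indicator (fun x => F ((1 - s) • z + s • x)) x ∂μ
      ≤ ∫⁻ x, (ball x₀ r).indicator F ((1 - s) • z + s • x) ∂μ := by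
        refine lintegral_mono fun x => ?_
        by_cases hx : x ∈ ball x₀ r
        · have h1 : (1 - s) • z + s • x ∈ ball x₀ r :=
            (convex_ball x₀ r) hz hx (by linarith) hs0.le (by ring)
          rw [indicator_of_mem hx, indicator_of_mem h1]
        · rw [indicator_of_notMem hx]
          exact bot_le
    _ = ENNReal.ofReal (s ^ (finrank ℝ E))⁻¹ * ∫⁻ x, (ball x₀ r).indicator F x ∂μ :=
        lintegral_comp_affine μ _ (hF.indicator measurableSet_ball) _ hs0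
    _ ≤ _ := by
        rw [lintegral_indicator measurableSet_ball]
        refine mul_le_mul' ?_ le_rfl
        have h2 : (s ^ (finrank ℝ E))⁻¹ ≤ 2 ^ (finrank ℝ E) := by
          rw [← inv_pow]
          refine pow_le_pow_left₀ (by positivity) ?_ _
          rw [inv_le_comm₀ hs0 (by norm_num)]
          linarith
        refine (ENNReal.ofReal_le_ofReal h2).trans_eq ?_
        rw [ENNReal.ofReal_pow (by norm_num)]
        simp

theorem double_integral_le {F : E → ℝ≥0∞} (hF : Measurable F) (x₀ : E) (r : ℝ) {t : ℝ}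
    (ht : t ∈ Icc (0 : ℝ) 1) :
    ∫⁻ y in ball x₀ r, ∫⁻ x in ball x₀ r, F (y + t • (x - y)) ∂μ ∂μ ≤
      μ (ball x₀ r) * (2 ^ (finrank ℝ E) * ∫⁻ x in ball x₀ r, F x ∂μ) := by
  have hcomb : ∀ x y : E, y + t • (x - y) = (1 - t) • y + t • x := by
    intro x y
    module
  simp_rw [hcomb]
  rcases le_total (1 / 2) t with h | h
  · calc _ ≤ ∫⁻ y in ball x₀ r, 2 ^ (finrank ℝ E) * ∫⁻ x in ball x₀ r, F x ∂μ ∂μ :=
          setLIntegral_mono' measurableSet_ball fun y hy =>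
            lintegral_segment_le μ hF x₀ r h ht.2 hy
      _ = _ := by rw [setLIntegral_const, mul_comm]
  · have hm : Measurable (Function.uncurry fun y x : E => F ((1 - t) • y + t • x)) :=
      hF.comp (by fun_prop)
    rw [lintegral_lintegral_swap hm.aemeasurable]
    calc _ ≤ ∫⁻ x in ball x₀ r, 2 ^ (finrank ℝ E) * ∫⁻ x in ball x₀ r, F x ∂μ ∂μ := by
          refine setLIntegral_mono' measurableSet_ball fun x hx => ?_
          have h3 := lintegral_segment_le μ hF x₀ r (s := 1 - t) (by linarith) (by linarith [ht.1])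
            hx
          refine (lintegral_mono fun y => ?_).trans h3
          rw [sub_sub_cancel, add_comm]
      _ = _ := by rw [setLIntegral_const, mul_comm]

theorem triple_integral_le {F : E → ℝ≥0∞} (hF : Measurable F) (x₀ : E) (r : ℝ) :
    ∫⁻ y in ball x₀ r, ∫⁻ x in ball x₀ r, (∫⁻ t in Icc (0 : ℝ) 1, F (y + t • (x - y))) ∂μ ∂μ ≤
      μ (ball x₀ r) * (2 ^ (finrank ℝ E) * ∫⁻ x in ball x₀ r, F x ∂μ) := by
  have h1 : ∀ y : E, ∫⁻ x in ball x₀ r, (∫⁻ t in Icc (0 : ℝ) 1, F (y + t • (x - y))) ∂μ =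
      ∫⁻ t in Icc (0 : ℝ) 1, ∫⁻ x in ball x₀ r, F (y + t • (x - y)) ∂μ := by
    intro y
    have hm : Measurable (Function.uncurry fun (x : E) (t : ℝ) => F (y + t • (x - y))) :=
      hF.comp (by fun_prop)
    exact lintegral_lintegral_swap hm.aemeasurable
  simp_rw [h1]
  have hm3 : Measurable fun z : (E × ℝ) × E => F (z.1.1 + z.1.2 • (z.2 - z.1.1)) :=
    hF.comp (by fun_prop)
  have hm2 : Measurable (Function.uncurry fun (y : E) (t : ℝ) =>
      ∫⁻ x in ball x₀ r, F (y + t • (x - y)) ∂μ) := by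
    exact hm3.lintegral_prod_right'
  rw [lintegral_lintegral_swap hm2.aemeasurable]
  calc _ ≤ ∫⁻ t in Icc (0 : ℝ) 1,
        μ (ball x₀ r) * (2 ^ (finrank ℝ E) * ∫⁻ x in ball x₀ r, F x ∂μ) :=
        setLIntegral_mono' measurableSet_Icc fun t ht => double_integral_le μ hF x₀ r ht
    _ = _ := by rw [setLIntegral_const]; simp

/-- Poincare inequality on a ball, with a value of the function in place of the mean. -/
theorem poincare {u : E → ℝ} (hu : ContDiff ℝ ∞ u) {p : ℝ} (hp : 1 ≤ p) (x₀ : E) {r : ℝ}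
    (hr : 0 < r) :
    ∃ y ∈ ball x₀ r, ∫⁻ x in ball x₀ r, ‖u x - u y‖ₑ ^ p ∂μ ≤
      ENNReal.ofReal ((2 * r) ^ p) * (2 ^ (finrank ℝ E) *
        ∫⁻ x in ball x₀ r, ‖fderiv ℝ u x‖ₑ ^ p ∂μ) := by
  have hp0 : 0 < p := by linarith
  have hB0 : μ (ball x₀ r) ≠ 0 := (measure_ball_pos μ x₀ hr).ne'
  have hBt : μ (ball x₀ r) ≠ ⊤ := measure_ball_lt_top.ne
  set F : E → ℝ≥0∞ := fun x => ‖fderiv ℝ u x‖ₑ ^ p with hF
  have hFm : Measurable F :=
    ((hu.continuous_fderiv (by simp)).enorm.measurable).pow_const p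
  have huc : Continuous u := hu.continuous
  have hm : Measurable fun z : E × E => ‖u z.2 - u z.1‖ₑ ^ p := by
    have : Continuous fun z : E × E => u z.2 - u z.1 := by fun_prop
    exact (this.enorm.measurable).pow_const p
  have hm2 : Measurable fun y : E => ∫⁻ x in ball x₀ r, ‖u x - u y‖ₑ ^ p ∂μ :=
    hm.lintegral_prod_right'
  obtain ⟨y, hy, hle⟩ := exists_le_setLAverage hB0 hBt hm2.aemeasurable
  refine ⟨y, hy, hle.trans ?_⟩
  rw [setLAverage_eq]
  refine ENNReal.div_le_of_le_mul' ?_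
  calc ∫⁻ y in ball x₀ r, ∫⁻ x in ball x₀ r, ‖u x - u y‖ₑ ^ p ∂μ ∂μ
      ≤ ∫⁻ y in ball x₀ r, ∫⁻ x in ball x₀ r, ENNReal.ofReal ((2 * r) ^ p) *
          (∫⁻ t in Icc (0 : ℝ) 1, F (y + t • (x - y))) ∂μ ∂μ := by
        refine setLIntegral_mono' measurableSet_ball fun y hy => ?_
        refine setLIntegral_mono' measurableSet_ball fun x hx => ?_
        refine (pointwise_path hu hp x y).trans (mul_le_mul' ?_ le_rfl)
        rw [← ofReal_norm, ENNReal.ofReal_rpow_of_nonneg (norm_nonneg _) hp0.le]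
        refine ENNReal.ofReal_le_ofReal (Real.rpow_le_rpow (norm_nonneg _) ?_ hp0.le)
        rw [mem_ball] at hx hy
        have h1 := dist_triangle_right x y x₀
        rw [dist_eq_norm x y] at h1
        linarith
    _ = ENNReal.ofReal ((2 * r) ^ p) * ∫⁻ y in ball x₀ r, ∫⁻ x in ball x₀ r,
          (∫⁻ t in Icc (0 : ℝ) 1, F (y + t • (x - y))) ∂μ ∂μ := by
        simp_rw [lintegral_const_mul' _ _ ENNReal.ofReal_ne_top]
    _ ≤ ENNReal.ofReal ((2 * r) ^ p) * (μ (ball x₀ r) * (2 ^ (finrank ℝ E) *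
          ∫⁻ x in ball x₀ r, F x ∂μ)) := mul_le_mul' le_rfl (triple_integral_le μ hFm x₀ r)
    _ = _ := by ring

end CapInradius
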