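import Mathlib

/-!
# Capacities and capacitary inradii in Euclidean space: the definitions of the statement
-/

open MeasureTheory Metric Set
open scoped ENNReal ContDiff

namespace Pool.Agent.MP_4d7ea7_an.Public

/-- Euclidean space of dimension `N`. -/
abbrev RN (N : ℕ) : Type := EuclideanSpace ℝ (Fin N)

/-- The smooth functions with compact support contained in `U`. -/
def TestFun {N : ℕ} (U : Set (RN N)) (φ : RN N → ℝ) : Prop :=
  ContDiff ℝ ∞ φ ∧ HasCompactSupport φ ∧ tsupport φ ⊆ U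

/-- The integral over `U` of the `p`-th power of the length of the gradient of `φ`. -/
noncomputable def energy {N : ℕ} (p : ℝ) (U : Set (RN N)) (φ : RN N → ℝ) : ℝ≥0∞ :=
  ∫⁻ x in U, ‖gradient φ x‖ₑ ^ p

/-- The `p`-capacity of `S` relative to `U`: the infimum of the energies of the test functions of
`U` that are at least one on `S`. For `U = univ` it is the absolute `p`-capacity. -/
noncomputable def pcap {N : ℕ} (p : ℝ) (S U : Set (RN N)) : ℝ≥0∞ :=
  ⨅ φ ∈ {φ : RN N → ℝ | TestFun U φ ∧ ∀ x ∈ S, 1 ≤ φ x}, energy p U φ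

/-- The capacitary inradius. -/
noncomputable def inradius {N : ℕ} (p γ : ℝ) (Ω : Set (RN N)) : ℝ≥0∞ :=
  sSup {R | ∃ r : ℝ, 0 < r ∧ R = ENNReal.ofReal r ∧ ∃ x₀ : RN N,
    pcap p (closedBall x₀ r \ Ω) (ball x₀ (2 * r)) ≤
      ENNReal.ofReal γ * pcap p (closedBall x₀ r) (ball x₀ (2 * r))}

/-- The capacitary inradius of Maz'ya and Shubin. -/
noncomputable def inradiusMS {N : ℕ} (p γ : ℝ) (Ω : Set (RN N)) : ℝ≥0∞ :=
  sSup {R | ∃ r : ℝ, 0 < r ∧ R = ENNReal.ofReal r ∧ ∃ x₀ : RN N,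
    pcap p (closedBall x₀ r \ Ω) univ ≤ ENNReal.ofReal γ * pcap p (closedBall x₀ r) univ}

end Pool.Agent.MP_4d7ea7_an.Public
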