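import Mathlib

/-!
# A smooth truncation with slope close to one
-/

open MeasureTheory Metric Set Filter Topology
open scoped ENNReal NNReal ContDiff

namespace CapInradius

theorem exists_trunc {w : ℝ} (hw : 1 < w) :
    ∃ g : ℝ → ℝ, ContDiff ℝ ∞ g ∧ g 0 = 1 ∧ (∃ e : ℝ, 0 < e ∧ ∀ t, 1 - e ≤ t → g t = 0) ∧
      (∀ t, 0 ≤ g t) ∧ (∀ t, g t ≤ 1) ∧ ∀ t, ‖deriv g t‖ ≤ w := by
  have hw0 : 0 < w := by linarith
  have hr : 1 / (2 * w) < 1 / 2 := by
    rw [one_div_lt_one_div (by positivity) (by norm_num)]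
    linarith
  let f : ContDiffBump (1 / 2 : ℝ) := ⟨1 / (2 * w), (1 / (2 * w) + 1 / 2) / 2, by positivity,
    by linarith⟩
  have hout : f.rOut < 1 / 2 := by
    change (1 / (2 * w) + 1 / 2) / 2 < 1 / 2
    linarith
  set β := f.normed volume with hβ
  have hβs : ContDiff ℝ ∞ β := f.contDiff_normed
  have hβc : Continuous β := hβs.continuous
  have hβ0 : ∀ s, 0 ≤ β s := fun s => f.nonneg_normed s
  have hβ1 : ∫ s, β s = 1 := f.integral_normed
  have hβint : Integrable β := by
    by_contra h
    rw [integral_undef h] at hβ1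
    exact zero_ne_one hβ1
  have hβw : ∀ s, β s ≤ w := by
    intro s
    have h1 := f.normed_le_div_measure_closedBall_rIn (μ := volume) s
    refine h1.trans_eq ?_
    have h2 : volume.real (closedBall (1 / 2 : ℝ) f.rIn) = 1 / w := by
      rw [measureReal_def, Real.volume_closedBall, ENNReal.toReal_ofReal]
      · change 2 * (1 / (2 * w)) = 1 / w
        field_simp
      · exact mul_nonneg (by norm_num) f.rIn_pos.le
    rw [h2]
    field_simp
  have hsupp : ∀ s, f.rOut ≤ |s - 1 / 2| → β s = 0 := by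
    intro s hs
    have h1 : s ∉ Function.support β := by
      rw [hβ, f.support_normed_eq, mem_ball, Real.dist_eq, not_lt]
      exact hs
    simpa using h1
  have hI0 : ∫ s in Iic (0 : ℝ), β s = 0 := by
    refine setIntegral_eq_zero_of_forall_eq_zero fun s hs => hsupp s ?_
    have : s ≤ 0 := hs
    rw [abs_sub_comm, abs_of_nonneg (by linarith)]
    linarith
  have hI : ∀ t, ∫ s in (0 : ℝ)..t, β s = ∫ s in Iic t, β s := by
    intro t
    rw [← intervalIntegral.integral_Iic_sub_Iic hβint.integrableOn hβint.integrableOn, hI0,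
      sub_zero]
  have hder : ∀ t, HasDerivAt (fun t => 1 - ∫ s in (0 : ℝ)..t, β s) (-β t) t := by
    intro t
    have h1 : HasDerivAt (fun t => ∫ s in (0 : ℝ)..t, β s) (β t) t :=
      intervalIntegral.integral_hasDerivAt_right (hβc.intervalIntegrable _ _)
        (hβc.stronglyMeasurableAtFilter _ _) hβc.continuousAt
    exact h1.const_sub 1
  refine ⟨fun t => 1 - ∫ s in (0 : ℝ)..t, β s, ?_, by simp, ⟨1 / 2 - f.rOut, by linarith, ?_⟩,
    ?_, ?_, ?_⟩
  · rw [contDiff_infty_iff_deriv]
    exact ⟨fun t => (hder t).differentiableAt, by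
      rw [show (deriv fun t => 1 - ∫ s in (0 : ℝ)..t, β s) = fun t => -β t from
        funext fun t => (hder t).deriv]
      exact hβs.neg⟩
  · intro t ht
    change 1 - ∫ s in (0 : ℝ)..t, β s = 0
    rw [hI, sub_eq_zero, ← hβ1]
    symm
    refine setIntegral_eq_integral_of_forall_compl_eq_zero fun s hs => hsupp s ?_
    have hs' : t < s := not_le.1 hs
    have hpos := f.rOut_pos
    rw [abs_of_nonneg (by linarith)]
    linarith
  · intro t
    change 0 ≤ 1 - ∫ s in (0 : ℝ)..t, β s
    rw [hI, sub_nonneg, ← hβ1]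
    exact setIntegral_le_integral hβint (Eventually.of_forall hβ0)
  · intro t
    change 1 - ∫ s in (0 : ℝ)..t, β s ≤ 1
    rw [hI]
    have : 0 ≤ ∫ s in Iic t, β s := integral_nonneg hβ0
    linarith
  · intro t
    rw [(hder t).deriv, norm_neg, Real.norm_eq_abs, abs_of_nonneg (hβ0 t)]
    exact hβw t

end CapInradius
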