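import Pool.Agent.MP_4d7ea7_an.Deform
import Pool.Agent.MP_4d7ea7_an.Trunc

/-!
# From a small capacity deficit to a good test function
-/

open MeasureTheory Metric Set Filter Topology Module
open scoped ENNReal NNReal ContDiff

namespace CapInradius

variable {E : Type*} [NormedAddCommGroup E] [NormedSpace ℝ E] [MeasurableSpace E]
  [BorelSpace E] [FiniteDimensional ℝ E] (μ : Measure E) [μ.IsAddHaarMeasure]

omit [NormedAddCommGroup E] [NormedSpace ℝ E] [BorelSpace E] [FiniteDimensional ℝ E]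
  [μ.IsAddHaarMeasure] in
theorem eLpNorm'_mul_norm {D : Type*} [NormedAddCommGroup D] (q : E → D) {p c : ℝ} (hp0 : 0 < p)
    (hc : 0 ≤ c) :
    eLpNorm' (fun x => c * ‖q x‖) p μ = ENNReal.ofReal c * eLpNorm' q p μ := by
  have h4 : (fun x => c * ‖q x‖) = c • fun x => ‖q x‖ := rfl
  rw [h4, eLpNorm'_const_smul c hp0, Real.enorm_eq_ofReal hc, eLpNorm'_norm]

omit [NormedAddCommGroup E] [NormedSpace ℝ E] [BorelSpace E] [FiniteDimensional ℝ E]
  [μ.IsAddHaarMeasure] in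
theorem eLpNorm'_le_of_bound {F A B : Type*} [NormedAddCommGroup F] [NormedAddCommGroup A]
    [NormedAddCommGroup B] {f : E → F} {f₁ : E → A} {f₂ : E → B} {p a b : ℝ} (hp : 1 ≤ p)
    (ha : 0 ≤ a) (hb : 0 ≤ b) (h₁ : AEStronglyMeasurable f₁ μ) (h₂ : AEStronglyMeasurable f₂ μ)
    (h : ∀ x, ‖f x‖ ≤ a * ‖f₁ x‖ + b * ‖f₂ x‖) :
    eLpNorm' f p μ ≤ ENNReal.ofReal a * eLpNorm' f₁ p μ + ENNReal.ofReal b * eLpNorm' f₂ p μ := by
  have hp0 : 0 < p := by linarith
  calc eLpNorm' f p μ ≤ eLpNorm' ((fun x => a * ‖f₁ x‖) + fun x => b * ‖f₂ x‖) p μ := by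
        refine eLpNorm'_mono_ae hp0.le (Eventually.of_forall fun x => ?_)
        refine (h x).trans (le_abs_self _)
    _ ≤ eLpNorm' (fun x => a * ‖f₁ x‖) p μ + eLpNorm' (fun x => b * ‖f₂ x‖) p μ :=
        eLpNorm'_add_le (h₁.norm.const_mul a) (h₂.norm.const_mul b) hp
    _ = _ := by rw [eLpNorm'_mul_norm μ f₁ hp0 ha, eLpNorm'_mul_norm μ f₂ hp0 hb]

theorem stepA {p : ℝ} (hp : 1 < p) (hpN : p < finrank ℝ E) {U : Set E}
    (hU : ball (0 : E) 2 ⊆ U) {γ : ℝ} (hγ0 : 0 ≤ γ) (hγ : γ < 1) :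
    ∃ K : ℝ≥0∞, K ≠ ⊤ ∧ ∀ Ω : Set E, IsOpen Ω →
      pc μ p (closedBall (0 : E) 1 \ Ω) U ≤ ENNReal.ofReal γ * pc μ p (closedBall (0 : E) 1) U →
      ∃ u : E → ℝ, TF Ω u ∧ 0 < ∫⁻ x, ‖u x‖ₑ ^ p ∂μ ∧
        en μ p u ≤ K * ∫⁻ x, ‖u x‖ₑ ^ p ∂μ := by
  have hp0 : 0 < p := by linarith
  set κ := pc μ p (closedBall (0 : E) 1) U with hκ
  have hκ0 : 0 < κ := pc_pos μ p hp hpN U
  have hκt : κ < ⊤ := pc_lt_top μ p hp0 hU
  obtain ⟨ρ, hρ0, hρ1, hρ⟩ : ∃ ρ : ℝ, 0 < ρ ∧ ρ < 1 ∧ γ < ρ ^ (3 * p) := by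
    refine ⟨((1 + γ) / 2) ^ (1 / (3 * p)), by positivity, ?_, ?_⟩
    · exact Real.rpow_lt_one (by positivity) (by linarith) (by positivity)
    · rw [← Real.rpow_mul (by positivity), one_div, inv_mul_cancel₀ (by positivity),
        Real.rpow_one]
      linarith
  have hρp : 1 < (ρ ^ p)⁻¹ := by
    rw [one_lt_inv₀ (by positivity)]
    exact Real.rpow_lt_one hρ0.le hρ1 hp0
  obtain ⟨e₀, he₀, hcap⟩ := pc_closedBall_le μ hρp p hp0 hU
  obtain ⟨e, he, hee, he1⟩ : ∃ e : ℝ, 0 < e ∧ e ≤ e₀ ∧ e < 1 :=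
    ⟨min e₀ (1 / 2), lt_min he₀ (by norm_num), min_le_left _ _,
      (min_le_right _ _).trans_lt (by norm_num)⟩
  have hcap' := hcap e he hee
  obtain ⟨ζ₂, z1, z2, z3, z4, z5⟩ := exists_bump (0 : E) (r := 1 - e) (R := 1 - e / 2)
    (U := ball (0 : E) 1) (by linarith) (by linarith) (closedBall_subset_ball (by linarith))
  obtain ⟨ζ₁, y1, y2, y3, y4, y5⟩ := exists_bump (0 : E) (r := 1 - e / 2) (R := 1 - e / 4)
    (U := ball (0 : E) 1) (by linarith) (by linarith) (closedBall_subset_ball (by linarith))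
  obtain ⟨g, g1, g2, ⟨e', he', g3⟩, g4, g5, g6⟩ := exists_trunc ((one_lt_inv₀ hρ0).2 hρ1)
  obtain ⟨L, hL, hLb⟩ := exists_fderiv_bound z1.smooth z1.cs
  obtain ⟨L₁, hL₁, hL₁b⟩ := exists_fderiv_bound y1.smooth y1.cs
  set a := κ ^ (1 / p) with ha
  have ha0 : 0 < a := ENNReal.rpow_pos hκ0 hκt.ne
  have hat : a ≠ ⊤ := (ENNReal.rpow_lt_top_of_nonneg (by positivity) hκt.ne).ne
  set I : E → ℝ := (closedBall (0 : E) 1).indicator fun _ => 1 with hI
  have hIm : AEStronglyMeasurable I μ :=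
    (stronglyMeasurable_const.indicator measurableSet_closedBall).aestronglyMeasurable
  have hIt : eLpNorm' I p μ ≠ ⊤ := by
    have h6 : MemLp I (ENNReal.ofReal p) μ :=
      memLp_indicator_const _ measurableSet_closedBall 1 (Or.inr measure_closedBall_lt_top.ne)
    have h7 := h6.2
    rw [eLpNorm_eq_eLpNorm' (by rw [Ne, ENNReal.ofReal_eq_zero, not_le]; exact hp0)
      ENNReal.ofReal_ne_top, ENNReal.toReal_ofReal hp0.le] at h7
    exact h7.ne
  have hρ2 : 0 < ρ - ρ ^ 2 := by nlinarith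
  have hL0 : ENNReal.ofReal L ≠ 0 := by
    rw [Ne, ENNReal.ofReal_eq_zero, not_le]; exact hL
  set δ := ENNReal.ofReal (ρ - ρ ^ 2) * a / ENNReal.ofReal L with hδ
  have hδ0 : 0 < δ := by
    refine ENNReal.div_pos (mul_ne_zero ?_ ha0.ne') ENNReal.ofReal_ne_top
    rw [Ne, ENNReal.ofReal_eq_zero, not_le]; exact hρ2
  have hδt : δ ≠ ⊤ := ENNReal.div_ne_top (ENNReal.mul_ne_top ENNReal.ofReal_ne_top hat) hL0
  set M := ENNReal.ofReal (ρ ^ 2) * a + ENNReal.ofReal L₁ * eLpNorm' I p μ with hM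
  have hMt : M ≠ ⊤ := ENNReal.add_ne_top.2 ⟨ENNReal.mul_ne_top ENNReal.ofReal_ne_top hat,
    ENNReal.mul_ne_top ENNReal.ofReal_ne_top hIt⟩
  have hδp0 : δ ^ p ≠ 0 := (ENNReal.rpow_pos hδ0 hδt).ne'
  have hδpt : δ ^ p ≠ ⊤ := (ENNReal.rpow_lt_top_of_nonneg hp0.le hδt).ne
  refine ⟨M ^ p / δ ^ p, ENNReal.div_ne_top (ENNReal.rpow_lt_top_of_nonneg hp0.le hMt).ne hδp0,
    fun Ω hΩ hcapΩ => ?_⟩
  have hlt : pc μ p (closedBall (0 : E) 1 \ Ω) U < ENNReal.ofReal (ρ ^ (3 * p)) * κ := by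
    refine hcapΩ.trans_lt ?_
    rw [ENNReal.mul_lt_mul_iff_left hκ0.ne' hκt.ne]
    exact (ENNReal.ofReal_lt_ofReal_iff (by positivity)).2 hρ
  obtain ⟨φ, f1, f2, f3⟩ := exists_of_pc_lt hlt
  have hφn : eLpNorm' (fderiv ℝ φ) p μ ≤ ENNReal.ofReal (ρ ^ 3) * a := by
    have h6 : eLpNorm' (fderiv ℝ φ) p μ = (en μ p φ) ^ (1 / p) := rfl
    rw [h6]
    refine (ENNReal.rpow_le_rpow f3.le (by positivity)).trans_eq ?_
    rw [ENNReal.mul_rpow_of_nonneg _ _ (by positivity),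
      ENNReal.ofReal_rpow_of_pos (by positivity), ← Real.rpow_mul hρ0.le]
    congr 2
    rw [mul_one_div, mul_div_assoc, div_self hp0.ne', mul_one]
    exact_mod_cast Real.rpow_natCast ρ 3
  set G : E → ℝ := fun x => g (φ x) with hG
  have hGs : ContDiff ℝ ∞ G := g1.comp f1.smooth
  have hGd : ∀ x, DifferentiableAt ℝ G x := fun x => (hGs.differentiable (by simp)).differentiableAt
  have hG0 : ∀ x, 0 ≤ G x := fun x => g4 _
  have hG1 : ∀ x, G x ≤ 1 := fun x => g5 _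
  have hGn : ∀ x, ‖fderiv ℝ G x‖ ≤ ρ⁻¹ * ‖fderiv ℝ φ x‖ := by
    intro x
    have h6 : fderiv ℝ G x = deriv g (φ x) • fderiv ℝ φ x :=
      (((g1.differentiable (by simp)).differentiableAt.hasDerivAt).comp_hasFDerivAt x
        ((f1.smooth.differentiable (by simp)).differentiableAt.hasFDerivAt)).fderiv
    rw [h6, norm_smul]
    exact mul_le_mul_of_nonneg_right (g6 _) (norm_nonneg _)
  -- the function u
  set u : E → ℝ := fun x => G x * ζ₁ x with hu
  have hus : ContDiff ℝ ∞ u := hGs.mul y1.smooth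
  have huT : TF Ω u := by
    refine ⟨hus, y1.cs.mul_left, ?_⟩
    have h6 : tsupport u ⊆ tsupport ζ₁ ∩ {x | φ x ≤ 1 - e'} := by
      refine closure_minimal ?_ ((isClosed_tsupport _).inter
        (isClosed_le f1.smooth.continuous continuous_const))
      intro x hx
      have h7 : G x ≠ 0 ∧ ζ₁ x ≠ 0 := mul_ne_zero_iff.1 hx
      refine ⟨subset_tsupport _ h7.2, ?_⟩
      by_contra h8
      exact h7.1 (g3 _ (not_le.1 h8).le)
    intro x hx
    obtain ⟨h7, h8⟩ := h6 hx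
    by_contra h9
    have h10 := f2 x ⟨ball_subset_closedBall (y1.supp h7), h9⟩
    have h11 : φ x ≤ 1 - e' := h8
    linarith
  -- the function v
  set v : E → ℝ := fun x => 1 - G x * (1 - ζ₂ x) with hv
  have hvs : ContDiff ℝ ∞ v := contDiff_const.sub (hGs.mul (contDiff_const.sub z1.smooth))
  have hvsub : tsupport v ⊆ tsupport φ ∪ tsupport ζ₂ := by
    refine closure_minimal ?_ ((isClosed_tsupport _).union (isClosed_tsupport _))
    intro x hx
    by_contra h6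
    rw [mem_union, not_or] at h6
    have h7 : φ x = 0 := image_eq_zero_of_notMem_tsupport h6.1
    have h8 : ζ₂ x = 0 := image_eq_zero_of_notMem_tsupport h6.2
    exact hx (by simp [hv, hG, h7, h8, g2])
  have hvT : TF U v := by
    refine ⟨hvs, (f1.cs.union z1.cs).of_isClosed_subset (isClosed_tsupport _) hvsub,
      hvsub.trans (union_subset f1.supp ?_)⟩
    exact z1.supp.trans ((ball_subset_ball (by norm_num)).trans hU)
  have hv1 : ∀ x ∈ closedBall (0 : E) (1 - e), 1 ≤ v x := by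
    intro x hx
    simp [hv, z2 x hx]
  have hκv : κ ≤ ENNReal.ofReal (ρ ^ p)⁻¹ * en μ p v := hcap'.trans (mul_le_mul' le_rfl
    (pc_le hvT hv1))
  have hav : ENNReal.ofReal ρ * a ≤ eLpNorm' (fderiv ℝ v) p μ := by
    have h6 : eLpNorm' (fderiv ℝ v) p μ = (en μ p v) ^ (1 / p) := rfl
    have h7 : a ≤ ENNReal.ofReal ρ⁻¹ * eLpNorm' (fderiv ℝ v) p μ := by
      rw [h6]
      refine (ENNReal.rpow_le_rpow hκv (by positivity)).trans_eq ?_
      rw [ENNReal.mul_rpow_of_nonneg _ _ (by positivity),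
        ENNReal.ofReal_rpow_of_pos (by positivity)]
      congr 2
      rw [Real.inv_rpow (by positivity), ← Real.rpow_mul hρ0.le, mul_one_div, div_self hp0.ne',
        Real.rpow_one]
    calc ENNReal.ofReal ρ * a ≤ ENNReal.ofReal ρ * (ENNReal.ofReal ρ⁻¹ *
          eLpNorm' (fderiv ℝ v) p μ) := mul_le_mul' le_rfl h7
      _ = _ := by
        rw [← mul_assoc, ← ENNReal.ofReal_mul hρ0.le, mul_inv_cancel₀ hρ0.ne', ENNReal.ofReal_one,
          one_mul]
  have hvb : eLpNorm' (fderiv ℝ v) p μ ≤ ENNReal.ofReal ρ⁻¹ * eLpNorm' (fderiv ℝ φ) p μ +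
      ENNReal.ofReal L * eLpNorm' u p μ := by
    refine eLpNorm'_le_of_bound μ hp.le (by positivity) hL.le
      (f1.smooth.continuous_fderiv (by simp)).aestronglyMeasurable
      hus.continuous.aestronglyMeasurable fun x => ?_
    have h6 : fderiv ℝ v x = -(G x • (-fderiv ℝ ζ₂ x) + (1 - ζ₂ x) • fderiv ℝ G x) :=
      (((hGd x).hasFDerivAt.mul (((z1.smooth.differentiable (by simp)).differentiableAt
        (x := x)).hasFDerivAt.const_sub 1)).const_sub 1).fderiv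
    rw [h6, norm_neg]
    refine (norm_add_le _ _).trans ?_
    rw [norm_smul, norm_smul, norm_neg, add_comm]
    refine add_le_add ?_ ?_
    · refine (mul_le_mul_of_nonneg_right ?_ (norm_nonneg _)).trans ((one_mul _).le.trans (hGn x))
      rw [Real.norm_eq_abs, abs_of_nonneg (by linarith [z4 x])]
      linarith [z3 x]
    · by_cases hx : x ∈ tsupport ζ₂
      · rw [z5] at hx
        have h7 : u x = G x := by simp [hu, y2 x hx]
        rw [h7, mul_comm]
        exact mul_le_mul_of_nonneg_right (hLb x) (norm_nonneg _)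
      · rw [fderiv_of_notMem_tsupport ℝ hx, norm_zero, mul_zero]
        positivity
  have hub : eLpNorm' (fderiv ℝ u) p μ ≤ ENNReal.ofReal ρ⁻¹ * eLpNorm' (fderiv ℝ φ) p μ +
      ENNReal.ofReal L₁ * eLpNorm' I p μ := by
    refine eLpNorm'_le_of_bound μ hp.le (by positivity) hL₁.le
      (f1.smooth.continuous_fderiv (by simp)).aestronglyMeasurable hIm fun x => ?_
    have h6 : fderiv ℝ u x = G x • fderiv ℝ ζ₁ x + ζ₁ x • fderiv ℝ G x :=
      ((hGd x).hasFDerivAt.mul ((y1.smooth.differentiable (by simp)).differentiableAt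
        (x := x)).hasFDerivAt).fderiv
    rw [h6]
    refine (norm_add_le _ _).trans ?_
    rw [norm_smul, norm_smul, add_comm]
    refine add_le_add ?_ ?_
    · refine (mul_le_mul_of_nonneg_right ?_ (norm_nonneg _)).trans ((one_mul _).le.trans (hGn x))
      rw [Real.norm_eq_abs, abs_of_nonneg (y3 x)]
      exact y4 x
    · by_cases hx : x ∈ tsupport ζ₁
      · have h7 : I x = 1 := by
          rw [hI, indicator_of_mem (ball_subset_closedBall (y1.supp hx))]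
        rw [h7, norm_one, mul_one]
        calc ‖G x‖ * ‖fderiv ℝ ζ₁ x‖ ≤ 1 * L₁ := by
              refine mul_le_mul ?_ (hL₁b x) (norm_nonneg _) zero_le_one
              rw [Real.norm_eq_abs, abs_of_nonneg (hG0 x)]
              exact hG1 x
          _ = L₁ := one_mul _
      · rw [fderiv_of_notMem_tsupport ℝ hx, norm_zero, mul_zero]
        positivity
  have h2 : ENNReal.ofReal ρ⁻¹ * eLpNorm' (fderiv ℝ φ) p μ ≤ ENNReal.ofReal (ρ ^ 2) * a := by
    refine (mul_le_mul' le_rfl hφn).trans_eq ?_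
    rw [← mul_assoc, ← ENNReal.ofReal_mul (by positivity)]
    congr 2
    field_simp
  have hδu : δ ≤ eLpNorm' u p μ := by
    rw [hδ]
    refine ENNReal.div_le_of_le_mul' ?_
    have h6 : ENNReal.ofReal (ρ - ρ ^ 2) * a + ENNReal.ofReal (ρ ^ 2) * a ≤
        ENNReal.ofReal L * eLpNorm' u p μ + ENNReal.ofReal (ρ ^ 2) * a := by
      rw [← add_mul, ← ENNReal.ofReal_add hρ2.le (by positivity), sub_add_cancel, add_comm]
      exact (hav.trans hvb).trans (add_le_add h2 le_rfl)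
    exact (ENNReal.add_le_add_iff_right (ENNReal.mul_ne_top ENNReal.ofReal_ne_top hat)).1 h6
  have huM : eLpNorm' (fderiv ℝ u) p μ ≤ M := hub.trans (add_le_add h2 le_rfl)
  have hun : ∫⁻ x, ‖u x‖ₑ ^ p ∂μ = (eLpNorm' u p μ) ^ p := by
    unfold eLpNorm'
    rw [← ENNReal.rpow_mul, one_div, inv_mul_cancel₀ hp0.ne', ENNReal.rpow_one]
  refine ⟨u, huT, ?_, ?_⟩
  · rw [hun]
    exact (ENNReal.rpow_pos hδ0 hδt).trans_le (ENNReal.rpow_le_rpow hδu hp0.le)
  · rw [hun, en_eq_eLpNorm' μ p hp0]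
    calc eLpNorm' (fderiv ℝ u) p μ ^ p ≤ M ^ p := ENNReal.rpow_le_rpow huM hp0.le
      _ = M ^ p / δ ^ p * δ ^ p := (ENNReal.div_mul_cancel hδp0 hδpt).symm
      _ ≤ _ := mul_le_mul' le_rfl (ENNReal.rpow_le_rpow hδu hp0.le)

end CapInradius
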