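import Pool.Agent.MP_4d7ea7_an.StepA
import Pool.Agent.MP_4d7ea7_an.Poincare

/-!
# From a good test function to a ball with tiny capacity of the complement
-/

open MeasureTheory Metric Set Filter Topology Module
open scoped ENNReal NNReal ContDiff

namespace CapInradius

variable {E : Type*} [NormedAddCommGroup E] [NormedSpace ℝ E] [MeasurableSpace E]
  [BorelSpace E] [FiniteDimensional ℝ E] (μ : Measure E) [μ.IsAddHaarMeasure]

/-- Averaging over all balls of a fixed radius. -/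
theorem lintegral_ball_average {f : E → ℝ≥0∞} (hf : Measurable f) (r : ℝ) :
    ∫⁻ z, ∫⁻ x in ball z r, f x ∂μ ∂μ = μ (ball (0 : E) r) * ∫⁻ x, f x ∂μ := by
  have h1 : ∀ z : E, ∫⁻ x in ball z r, f x ∂μ = ∫⁻ x, (ball x r).indicator (fun _ => f x) z ∂μ := by
    intro z
    rw [← lintegral_indicator measurableSet_ball]
    refine lintegral_congr fun x => ?_
    by_cases hx : x ∈ ball z r
    · rw [indicator_of_mem hx, indicator_of_mem (mem_ball_comm.1 hx)]
    · rw [indicator_of_notMem hx, indicator_of_notMem (fun h => hx (mem_ball_comm.1 h))]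
  simp_rw [h1]
  have hm : Measurable (Function.uncurry fun z x : E => (ball x r).indicator (fun _ => f x) z) := by
    have h2 : (Function.uncurry fun z x : E => (ball x r).indicator (fun _ => f x) z) =
        {q : E × E | dist q.1 q.2 < r}.indicator fun q => f q.2 := by
      ext q
      by_cases hq : dist q.1 q.2 < r
      · rw [indicator_of_mem (show q ∈ {q : E × E | dist q.1 q.2 < r} from hq)]
        change (ball q.2 r).indicator (fun _ => f q.2) q.1 = _
        rw [indicator_of_mem (mem_ball.2 hq)]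
      · rw [indicator_of_notMem (show q ∉ {q : E × E | dist q.1 q.2 < r} from hq)]
        change (ball q.2 r).indicator (fun _ => f q.2) q.1 = _
        rw [indicator_of_notMem (fun h => hq (mem_ball.1 h))]
    rw [h2]
    refine (hf.comp measurable_snd).indicator ?_
    exact (isOpen_lt (by fun_prop) continuous_const).measurableSet
  rw [lintegral_lintegral_swap hm.aemeasurable]
  calc _ = ∫⁻ x, f x * μ (ball (0 : E) r) ∂μ := by
        refine lintegral_congr fun x => ?_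
        rw [lintegral_indicator measurableSet_ball, setLIntegral_const,
          Measure.addHaar_ball_center]
    _ = _ := by rw [lintegral_mul_const _ hf, mul_comm]

theorem exists_good_center {f h : E → ℝ≥0∞} (hf : Measurable f) (hh : Measurable h) {K : ℝ≥0∞}
    (hK0 : K ≠ 0) (hKt : K ≠ ⊤) (h0 : ∫⁻ x, h x ∂μ ≠ 0) (ht : ∫⁻ x, h x ∂μ ≠ ⊤)
    (hle : ∫⁻ x, f x ∂μ ≤ K * ∫⁻ x, h x ∂μ) {r : ℝ} (hr : 0 < r) :
    ∃ z : E, ∫⁻ x in ball z r, f x ∂μ < 2 * K * ∫⁻ x in ball z r, h x ∂μ := by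
  by_contra hcon
  push Not at hcon
  have hB0 : μ (ball (0 : E) r) ≠ 0 := (measure_ball_pos μ _ hr).ne'
  have hBt : μ (ball (0 : E) r) ≠ ⊤ := measure_ball_lt_top.ne
  have h2K : (2 * K : ℝ≥0∞) ≠ ⊤ := ENNReal.mul_ne_top (by simp) hKt
  have h1 : 2 * K * (μ (ball (0 : E) r) * ∫⁻ x, h x ∂μ) ≤ μ (ball (0 : E) r) * ∫⁻ x, f x ∂μ := by
    rw [← lintegral_ball_average μ hh, ← lintegral_ball_average μ hf,
      ← lintegral_const_mul' _ _ h2K]
    exact lintegral_mono hcon
  set X := K * (μ (ball (0 : E) r) * ∫⁻ x, h x ∂μ) with hX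
  have hX0 : X ≠ 0 := mul_ne_zero hK0 (mul_ne_zero hB0 h0)
  have hXt : X ≠ ⊤ := ENNReal.mul_ne_top hKt (ENNReal.mul_ne_top hBt ht)
  have h3 : X + X ≤ X := by
    calc X + X = 2 * K * (μ (ball (0 : E) r) * ∫⁻ x, h x ∂μ) := by rw [hX]; ring
      _ ≤ μ (ball (0 : E) r) * ∫⁻ x, f x ∂μ := h1
      _ ≤ μ (ball (0 : E) r) * (K * ∫⁻ x, h x ∂μ) := mul_le_mul' le_rfl hle
      _ = X := by rw [hX]; ring
  have h4 : X < X + X := ENNReal.lt_add_right hXt hX0
  exact absurd h3 (not_le.2 h4)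

theorem stepB_unit {p : ℝ} (hp : 1 < p) {ε : ℝ} (hε : 0 < ε) :
    ∃ k : ℝ, 0 < k ∧ ∀ (Ω : Set E) (u : E → ℝ), ContDiff ℝ ∞ u → (∀ x, x ∉ Ω → u x = 0) →
      ∫⁻ x in ball (0 : E) 2, ‖u x‖ₑ ^ p ∂μ ≠ ⊤ →
      ∫⁻ x in ball (0 : E) 2, ‖fderiv ℝ u x‖ₑ ^ p ∂μ <
        ENNReal.ofReal k * ∫⁻ x in ball (0 : E) 2, ‖u x‖ₑ ^ p ∂μ →
      pc μ p (closedBall (0 : E) 1 \ Ω) (ball (0 : E) 2) ≤ ENNReal.ofReal ε := by
  have hp0 : 0 < p := by linarith
  set B := ball (0 : E) 2 with hB
  have hBt : μ B < ⊤ := measure_ball_lt_top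
  set m : ℝ := ((μ B) ^ (1 / p)).toReal with hm
  have hmt : (μ B) ^ (1 / p) ≠ ⊤ := (ENNReal.rpow_lt_top_of_nonneg (by positivity) hBt.ne).ne
  have hm' : (μ B) ^ (1 / p) = ENNReal.ofReal m := (ENNReal.ofReal_toReal hmt).symm
  have hm0 : 0 < m := ENNReal.toReal_pos
    (ENNReal.rpow_pos (measure_ball_pos μ _ (by norm_num)) hBt.ne).ne' hmt
  obtain ⟨η, h1, h2, h3, h4, h5⟩ := exists_bump (0 : E) (r := 1) (R := 3 / 2) (U := B)
    (by norm_num) (by norm_num) (closedBall_subset_ball (by norm_num))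
  obtain ⟨L, hL, hLb⟩ := exists_fderiv_bound h1.smooth h1.cs
  set n := finrank ℝ E with hn
  set Q : ℝ := ((2 * 2) ^ p * 2 ^ n) ^ (1 / p) with hQ
  have hQ0 : 0 < Q := by positivity
  set δ : ℝ := min (1 / (2 * Q)) (ε ^ (1 / p) / (2 * (1 + L * Q) * m)) with hδ
  have hδ0 : 0 < δ := lt_min (by positivity) (by positivity)
  have hδ1 : Q * δ ≤ 1 / 2 := by
    have := min_le_left (1 / (2 * Q)) (ε ^ (1 / p) / (2 * (1 + L * Q) * m))
    rw [← hδ, le_div_iff₀ (by positivity)] at this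
    linarith
  have hδ2 : 2 * (1 + L * Q) * m * δ ≤ ε ^ (1 / p) := by
    have := min_le_right (1 / (2 * Q)) (ε ^ (1 / p) / (2 * (1 + L * Q) * m))
    rw [← hδ, le_div_iff₀ (by positivity)] at this
    linarith
  refine ⟨δ ^ p, by positivity, fun Ω u hu hu0 hAt hlt => ?_⟩
  set ν := μ.restrict B with hν
  set A' := eLpNorm' u p ν with hA'
  set D' := eLpNorm' (fderiv ℝ u) p ν with hD'
  have hA0 : ∫⁻ x in B, ‖u x‖ₑ ^ p ∂μ ≠ 0 := by
    intro h
    rw [h, mul_zero] at hlt
    exact not_lt_bot hlt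
  have hA'0 : A' ≠ 0 := (ENNReal.rpow_pos (pos_iff_ne_zero.2 hA0) hAt).ne'
  have hA't : A' ≠ ⊤ := (ENNReal.rpow_lt_top_of_nonneg (by positivity) hAt).ne
  have hDA : D' ≤ ENNReal.ofReal δ * A' := by
    refine (ENNReal.rpow_le_rpow hlt.le (by positivity)).trans_eq ?_
    rw [ENNReal.mul_rpow_of_nonneg _ _ (by positivity), ENNReal.ofReal_rpow_of_pos (by positivity),
      ← Real.rpow_mul hδ0.le, mul_one_div, div_self hp0.ne', Real.rpow_one]
    rfl
  obtain ⟨y, hy, hP⟩ := poincare μ hu hp.le (0 : E) (r := 2) (by norm_num)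
  set c := u y with hc
  set P' := eLpNorm' (fun x => u x - c) p ν with hP'
  have hPD : P' ≤ ENNReal.ofReal Q * D' := by
    refine (ENNReal.rpow_le_rpow hP (by positivity)).trans_eq ?_
    rw [← mul_assoc, ENNReal.mul_rpow_of_nonneg _ _ (by positivity)]
    have h6 : ENNReal.ofReal ((2 * 2) ^ p) * 2 ^ n = ENNReal.ofReal ((2 * 2) ^ p * 2 ^ n) := by
      rw [ENNReal.ofReal_mul (by positivity), ENNReal.ofReal_pow (by norm_num)]
      simp
    rw [h6, ENNReal.ofReal_rpow_of_pos (by positivity)]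
    rfl
  have huc : Continuous u := hu.continuous
  have hum : AEStronglyMeasurable (fun x => u x - c) ν := by
    have : Continuous fun x => u x - c := by fun_prop
    exact this.aestronglyMeasurable
  have hdm : AEStronglyMeasurable (fderiv ℝ u) ν :=
    (hu.continuous_fderiv (by simp)).aestronglyMeasurable
  have hone : eLpNorm' (fun _ : E => (1 : ℝ)) p ν = ENNReal.ofReal m := by
    rw [← hm', eLpNorm'_const _ hp0]
    simp [hν]
  have hAP : A' ≤ P' + ENNReal.ofReal |c| * ENNReal.ofReal m := by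
    have h6 := eLpNorm'_le_of_bound ν (f := u) (f₁ := fun x => u x - c)
      (f₂ := fun _ : E => (1 : ℝ)) (a := 1) (b := |c|) hp.le zero_le_one (abs_nonneg c) hum
      aestronglyMeasurable_const (fun x => by
        rw [one_mul, norm_one, mul_one]
        calc ‖u x‖ = ‖(u x - c) + c‖ := by rw [sub_add_cancel]
          _ ≤ _ := norm_add_le _ _)
    rwa [ENNReal.ofReal_one, one_mul, hone] at h6
  have hAc : A' ≤ 2 * (ENNReal.ofReal |c| * ENNReal.ofReal m) := by
    have hhalf : ENNReal.ofReal (1 / 2) + ENNReal.ofReal (1 / 2) = 1 := by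
      rw [← ENNReal.ofReal_add (by norm_num) (by norm_num)]
      norm_num
    have h6 : P' ≤ ENNReal.ofReal (1 / 2) * A' := by
      calc P' ≤ ENNReal.ofReal Q * (ENNReal.ofReal δ * A') := hPD.trans (mul_le_mul' le_rfl hDA)
        _ = ENNReal.ofReal (Q * δ) * A' := by rw [← mul_assoc, ← ENNReal.ofReal_mul hQ0.le]
        _ ≤ _ := mul_le_mul' (ENNReal.ofReal_le_ofReal hδ1) le_rfl
    have h7 : ENNReal.ofReal (1 / 2) * A' + ENNReal.ofReal (1 / 2) * A' ≤
        ENNReal.ofReal |c| * ENNReal.ofReal m + ENNReal.ofReal (1 / 2) * A' := by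
      rw [← add_mul, hhalf, one_mul, add_comm]
      exact hAP.trans (add_le_add h6 le_rfl)
    have h8 := (ENNReal.add_le_add_iff_right (ENNReal.mul_ne_top ENNReal.ofReal_ne_top hA't)).1 h7
    calc A' = (ENNReal.ofReal (1 / 2) + ENNReal.ofReal (1 / 2)) * A' := by rw [hhalf, one_mul]
      _ = 2 * (ENNReal.ofReal (1 / 2) * A') := by ring
      _ ≤ _ := mul_le_mul' le_rfl h8
  have hc0 : c ≠ 0 := by
    intro h
    rw [h, abs_zero, ENNReal.ofReal_zero, zero_mul, mul_zero] at hAc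
    exact hA'0 (le_bot_iff.1 hAc)
  have hcp : 0 < |c| := abs_pos.2 hc0
  set w : E → ℝ := fun x => (1 - c⁻¹ * u x) * η x with hw
  have hws : ContDiff ℝ ∞ w := (contDiff_const.sub (contDiff_const.mul hu)).mul h1.smooth
  have hwsub : tsupport w ⊆ tsupport η := by
    refine closure_minimal ?_ (isClosed_tsupport _)
    intro x hx
    exact subset_tsupport _ (mul_ne_zero_iff.1 hx).2
  have hwT : TF B w := ⟨hws, h1.cs.mul_left, hwsub.trans h1.supp⟩
  have hwb : ∀ x, ‖fderiv ℝ w x‖ ≤ |c|⁻¹ * ‖fderiv ℝ u x‖ + (|c|⁻¹ * L) * ‖u x - c‖ := by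
    intro x
    have h6 : fderiv ℝ w x = (1 - c⁻¹ * u x) • fderiv ℝ η x +
        η x • (-(c⁻¹ • fderiv ℝ u x)) :=
      ((((hu.differentiable (by simp)).differentiableAt (x := x)).hasFDerivAt.const_mul
        c⁻¹).const_sub 1 |>.mul ((h1.smooth.differentiable (by simp)).differentiableAt
        (x := x)).hasFDerivAt).fderiv
    rw [h6]
    refine (norm_add_le _ _).trans ?_
    rw [norm_smul, norm_smul, norm_neg, norm_smul, add_comm]
    refine add_le_add ?_ ?_
    · rw [norm_inv, Real.norm_eq_abs c]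
      refine (mul_le_mul_of_nonneg_right ?_ (by positivity)).trans (one_mul _).le
      rw [Real.norm_eq_abs, abs_of_nonneg (h3 x)]
      exact h4 x
    · have h7 : ‖1 - c⁻¹ * u x‖ = |c|⁻¹ * ‖u x - c‖ := by
        rw [← abs_inv, ← Real.norm_eq_abs, ← norm_mul, ← norm_neg]
        congr 1
        field_simp
        ring
      rw [h7]
      calc |c|⁻¹ * ‖u x - c‖ * ‖fderiv ℝ η x‖ ≤ |c|⁻¹ * ‖u x - c‖ * L :=
            mul_le_mul_of_nonneg_left (hLb x) (by positivity)
        _ = _ := by ring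
  have hwn : eLpNorm' (fderiv ℝ w) p ν ≤ ENNReal.ofReal (ε ^ (1 / p)) := by
    have h6 := eLpNorm'_le_of_bound ν (f := fderiv ℝ w) (f₁ := fderiv ℝ u)
      (f₂ := fun x => u x - c) hp.le (by positivity) (by positivity) hdm hum hwb
    calc eLpNorm' (fderiv ℝ w) p ν ≤ ENNReal.ofReal |c|⁻¹ * D' + ENNReal.ofReal (|c|⁻¹ * L) * P' :=
          h6
      _ ≤ ENNReal.ofReal |c|⁻¹ * (ENNReal.ofReal δ * A') +
          ENNReal.ofReal (|c|⁻¹ * L) * (ENNReal.ofReal Q * (ENNReal.ofReal δ * A')) :=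
          add_le_add (mul_le_mul' le_rfl hDA)
            (mul_le_mul' le_rfl (hPD.trans (mul_le_mul' le_rfl hDA)))
      _ = ENNReal.ofReal (|c|⁻¹ * δ + |c|⁻¹ * L * (Q * δ)) * A' := by
          rw [← mul_assoc, ← ENNReal.ofReal_mul (by positivity), ← mul_assoc (ENNReal.ofReal Q),
            ← ENNReal.ofReal_mul (by positivity), ← mul_assoc, ← ENNReal.ofReal_mul (by positivity),
            ← add_mul, ← ENNReal.ofReal_add (by positivity) (by positivity)]
      _ ≤ ENNReal.ofReal (|c|⁻¹ * δ + |c|⁻¹ * L * (Q * δ)) *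
          (2 * (ENNReal.ofReal |c| * ENNReal.ofReal m)) := mul_le_mul' le_rfl hAc
      _ = ENNReal.ofReal (2 * (1 + L * Q) * m * δ) := by
          rw [show (2 : ℝ≥0∞) = ENNReal.ofReal 2 by simp, ← ENNReal.ofReal_mul (by positivity),
            ← ENNReal.ofReal_mul (by positivity), ← ENNReal.ofReal_mul (by positivity)]
          congr 1
          field_simp
      _ ≤ _ := ENNReal.ofReal_le_ofReal hδ2
  have hen : en μ p w = (eLpNorm' (fderiv ℝ w) p ν) ^ p := by
    unfold eLpNorm' en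
    rw [← ENNReal.rpow_mul, one_div, inv_mul_cancel₀ hp0.ne', ENNReal.rpow_one, hν,
      ← lintegral_indicator measurableSet_ball]
    refine lintegral_congr fun x => ?_
    by_cases hx : x ∈ B
    · rw [indicator_of_mem hx]
    · have h8 : ‖fderiv ℝ w x‖ₑ = 0 := by
        rw [← ofReal_norm, fderiv_of_notMem_tsupport ℝ (fun h => hx (hwT.supp h)), norm_zero,
          ENNReal.ofReal_zero]
      rw [indicator_of_notMem hx, h8, ENNReal.zero_rpow_of_pos hp0]
  refine (pc_le hwT fun x hx => ?_).trans ?_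
  · simp [hw, hu0 x hx.2, h2 x hx.1]
  · rw [hen]
    refine (ENNReal.rpow_le_rpow hwn hp0.le).trans_eq ?_
    rw [ENNReal.ofReal_rpow_of_pos (by positivity), ← Real.rpow_mul hε.le, one_div,
      inv_mul_cancel₀ hp0.ne', Real.rpow_one]

end CapInradius
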