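import Pool.Agent.MP_4d7ea7_an.StepB

/-!
# Transfer of admissible balls between two families of reference domains
-/

open MeasureTheory Metric Set Filter Topology Module
open scoped ENNReal NNReal ContDiff

namespace CapInradius

variable {E : Type*} [NormedAddCommGroup E] [NormedSpace ℝ E] [MeasurableSpace E]

/-- The ball `B_r(x)` is admissible for `Ω`, with reference domains `D`. -/
def Adm (D : E → ℝ → Set E) (μ : Measure E) (p γ : ℝ) (Ω : Set E) (x : E) (r : ℝ) : Prop :=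
  pc μ p (closedBall x r \ Ω) (D x r) ≤ ENNReal.ofReal γ * pc μ p (closedBall x r) (D x r)

/-- Reference domains that contain the double ball and scale correctly. -/
structure GoodDom (D : E → ℝ → Set E) : Prop where
  sub : ∀ x r, ball x (2 * r) ⊆ D x r
  pre : ∀ (c x : E) (s r : ℝ), 0 < s → (fun y => c + s • y) ⁻¹' (D (c + s • x) (s * r)) = D x r

omit [MeasurableSpace E] in
theorem preimage_ball_affine (c x : E) {s : ℝ} (hs : 0 < s) (r : ℝ) :
    (fun y => c + s • y) ⁻¹' (ball (c + s • x) (s * r)) = ball x r := by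
  ext y
  rw [mem_preimage, mem_ball, mem_ball, dist_add_left, dist_smul₀, Real.norm_eq_abs,
    abs_of_pos hs, mul_lt_mul_iff_right₀ hs]

omit [MeasurableSpace E] in
theorem preimage_closedBall_affine (c x : E) {s : ℝ} (hs : 0 < s) (r : ℝ) :
    (fun y => c + s • y) ⁻¹' (closedBall (c + s • x) (s * r)) = closedBall x r := by
  ext y
  rw [mem_preimage, mem_closedBall, mem_closedBall, dist_add_left, dist_smul₀, Real.norm_eq_abs,
    abs_of_pos hs, mul_le_mul_iff_right₀ hs]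

omit [MeasurableSpace E] in
theorem goodDom_ball : GoodDom fun (x : E) (r : ℝ) => ball x (2 * r) where
  sub _ _ := Subset.rfl
  pre c x s r hs := by
    rw [show 2 * (s * r) = s * (2 * r) by ring]
    exact preimage_ball_affine c x hs _

omit [MeasurableSpace E] in
theorem goodDom_univ : GoodDom fun (_ : E) (_ : ℝ) => (univ : Set E) where
  sub _ _ := subset_univ _
  pre _ _ _ _ _ := rfl

omit [MeasurableSpace E] in
theorem fderiv_comp_affine {φ : E → ℝ} (hφ : ContDiff ℝ ∞ φ) (c : E) (s : ℝ) (x : E) :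
    fderiv ℝ (fun x => φ (c + s • x)) x = s • fderiv ℝ φ (c + s • x) := by
  have h1 : HasFDerivAt φ (fderiv ℝ φ (c + s • x)) (c + s • x) :=
    (hφ.differentiable (by simp)).differentiableAt.hasFDerivAt
  have h2 : HasFDerivAt (fun x : E => c + s • x) (s • ContinuousLinearMap.id ℝ E) x :=
    ((hasFDerivAt_id x).const_smul s).const_add c
  have h3 := h1.comp x h2
  rw [show (fun x => φ (c + s • x)) = φ ∘ (fun x : E => c + s • x) from rfl, h3.fderiv]
  ext v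
  simp

variable [BorelSpace E] [FiniteDimensional ℝ E] (μ : Measure E) [μ.IsAddHaarMeasure]

theorem adm_preimage {D : E → ℝ → Set E} (hD : GoodDom D) {p : ℝ} (hp : 0 ≤ p) (γ : ℝ)
    (Ω : Set E) (c x : E) {s : ℝ} (hs : 0 < s) (r : ℝ) :
    Adm D μ p γ ((fun y => c + s • y) ⁻¹' Ω) x r ↔ Adm D μ p γ Ω (c + s • x) (s * r) := by
  unfold Adm
  have h1 : closedBall x r \ (fun y => c + s • y) ⁻¹' Ω =
      (fun y => c + s • y) ⁻¹' (closedBall (c + s • x) (s * r) \ Ω) := by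
    rw [preimage_sdiff, preimage_closedBall_affine c x hs]
  rw [h1, ← hD.pre c x s r hs, pc_preimage μ p hp _ _ c hs, ← preimage_closedBall_affine c x hs r,
    pc_preimage μ p hp _ _ c hs, mul_left_comm]
  refine ENNReal.mul_le_mul_iff_right ?_ ENNReal.ofReal_ne_top
  rw [Ne, ENNReal.ofReal_eq_zero, not_le]
  positivity

theorem lintegral_ball_comp {F : E → ℝ≥0∞} (hF : Measurable F) (z : E) {s : ℝ} (hs : 0 < s) :
    ∫⁻ y in ball (0 : E) 2, F (z + s • y) ∂μ =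
      ENNReal.ofReal (s ^ (finrank ℝ E))⁻¹ * ∫⁻ x in ball z (s * 2), F x ∂μ := by
  rw [← lintegral_indicator measurableSet_ball, ← lintegral_indicator measurableSet_ball,
    ← lintegral_comp_affine μ _ (hF.indicator measurableSet_ball) z hs]
  refine lintegral_congr fun y => ?_
  have h1 : y ∈ ball (0 : E) 2 ↔ z + s • y ∈ ball z (s * 2) := by
    have h2 := preimage_ball_affine z (0 : E) hs 2
    rw [smul_zero, add_zero] at h2
    rw [← h2]
    rfl
  by_cases hy : y ∈ ball (0 : E) 2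
  · rw [indicator_of_mem hy, indicator_of_mem (h1.1 hy)]
  · rw [indicator_of_notMem hy, indicator_of_notMem (fun h => hy (h1.2 h))]

/-- Transfer: an admissible ball of radius `r` for `D₁` and any `γ < 1` gives an admissible ball
of radius `c r` for `D₂` and any prescribed `β > 0`. -/
theorem transfer {D₁ D₂ : E → ℝ → Set E} (h₁ : GoodDom D₁) (h₂ : GoodDom D₂) {p : ℝ} (hp : 1 < p)
    (hpN : p < finrank ℝ E) {γ β : ℝ} (hγ0 : 0 < γ) (hγ : γ < 1) (hβ0 : 0 < β) :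
    ∃ c : ℝ, 0 < c ∧ ∀ Ω : Set E, IsOpen Ω → ∀ (x₀ : E) (r : ℝ), 0 < r →
      Adm D₁ μ p γ Ω x₀ r → ∃ x₁ : E, Adm D₂ μ p β Ω x₁ (c * r) := by
  have hp0 : 0 < p := by linarith
  have hU₁ : ball (0 : E) 2 ⊆ D₁ 0 1 := by simpa using h₁.sub 0 1
  have hU₂ : ball (0 : E) 2 ⊆ D₂ 0 1 := by simpa using h₂.sub 0 1
  obtain ⟨K, hK, hA⟩ := stepA μ hp hpN hU₁ hγ0.le hγ
  set κ := pc μ p (closedBall (0 : E) 1) (D₂ 0 1) with hκ
  have hκ0 : 0 < κ := pc_pos μ p hp hpN _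
  have hκt : κ < ⊤ := pc_lt_top μ p hp0 hU₂
  have hκr : 0 < κ.toReal := ENNReal.toReal_pos hκ0.ne' hκt.ne
  obtain ⟨k, hk, hB⟩ := stepB_unit μ hp (ε := β * κ.toReal) (by positivity)
  have hεκ : ENNReal.ofReal (β * κ.toReal) = ENNReal.ofReal β * κ := by
    rw [ENNReal.ofReal_mul hβ0.le, ENNReal.ofReal_toReal hκt.ne]
  set K' := max K 1 with hK'
  have hK'0 : K' ≠ 0 := (lt_of_lt_of_le one_pos (le_max_right _ _)).ne'
  have hK't : K' ≠ ⊤ := by
    rw [hK', Ne, max_eq_top, not_or]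
    exact ⟨hK, ENNReal.one_ne_top⟩
  set Kr := K'.toReal with hKr
  have hKr0 : 0 < Kr := ENNReal.toReal_pos hK'0 hK't
  have hKr' : ENNReal.ofReal Kr = K' := ENNReal.ofReal_toReal hK't
  set s : ℝ := (k / (2 * Kr)) ^ (1 / p) with hs
  have hs0 : 0 < s := by positivity
  have hsp : s ^ p * (2 * Kr) = k := by
    rw [hs, ← Real.rpow_mul (by positivity), one_div, inv_mul_cancel₀ hp0.ne', Real.rpow_one]
    field_simp
  refine ⟨s, hs0, fun Ω hΩ x₀ r hr hadm => ?_⟩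
  set Ω₁ : Set E := (fun y => x₀ + r • y) ⁻¹' Ω with hΩ₁
  have hΩ₁o : IsOpen Ω₁ := hΩ.preimage (by fun_prop)
  have hadm₁ : Adm D₁ μ p γ Ω₁ 0 1 := by
    rw [hΩ₁, adm_preimage μ h₁ hp0.le γ Ω x₀ 0 hr 1]
    simpa using hadm
  obtain ⟨u, huT, hu0, huK⟩ := hA Ω₁ hΩ₁o hadm₁
  have hut : ∫⁻ x, ‖u x‖ₑ ^ p ∂μ ≠ ⊤ :=
    (lintegral_lt_top_of_cont μ huT.smooth.continuous huT.cs p hp0).ne
  have hum : Measurable fun x => ‖u x‖ₑ ^ p :=
    (huT.smooth.continuous.enorm.measurable).pow_const p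
  have hdm : Measurable fun x => ‖fderiv ℝ u x‖ₑ ^ p :=
    ((huT.smooth.continuous_fderiv (by simp)).enorm.measurable).pow_const p
  obtain ⟨z, hz⟩ := exists_good_center μ hdm hum hK'0 hK't hu0.ne' hut
    (huK.trans (mul_le_mul' (le_max_left _ _) le_rfl)) (r := s * 2) (by positivity)
  set u₂ : E → ℝ := fun y => u (z + s • y) with hu₂
  have hu₂s : ContDiff ℝ ∞ u₂ := huT.smooth.comp (by fun_prop)
  set Ω₂ : Set E := (fun y => z + s • y) ⁻¹' Ω₁ with hΩ₂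
  have hu₂0 : ∀ x, x ∉ Ω₂ → u₂ x = 0 := by
    intro x hx
    change u (z + s • x) = 0
    exact image_eq_zero_of_notMem_tsupport fun h => hx (huT.supp h)
  have hI₁ : ∫⁻ y in ball (0 : E) 2, ‖u₂ y‖ₑ ^ p ∂μ =
      ENNReal.ofReal (s ^ (finrank ℝ E))⁻¹ * ∫⁻ x in ball z (s * 2), ‖u x‖ₑ ^ p ∂μ :=
    lintegral_ball_comp μ hum z hs0
  have hI₂ : ∫⁻ y in ball (0 : E) 2, ‖fderiv ℝ u₂ y‖ₑ ^ p ∂μ =
      ENNReal.ofReal (s ^ p) * (ENNReal.ofReal (s ^ (finrank ℝ E))⁻¹ *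
        ∫⁻ x in ball z (s * 2), ‖fderiv ℝ u x‖ₑ ^ p ∂μ) := by
    rw [← lintegral_ball_comp μ hdm z hs0, ← lintegral_const_mul' _ _ ENNReal.ofReal_ne_top]
    refine lintegral_congr fun y => ?_
    rw [fderiv_comp_affine huT.smooth z s y, enorm_smul, ENNReal.mul_rpow_of_nonneg _ _ hp0.le,
      Real.enorm_eq_ofReal hs0.le, ENNReal.ofReal_rpow_of_pos hs0]
  have hfin : ∫⁻ x in ball z (s * 2), ‖u x‖ₑ ^ p ∂μ ≠ ⊤ :=
    ((setLIntegral_le_lintegral _ _).trans_lt (lt_top_iff_ne_top.2 hut)).ne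
  have hfin₂ : ∫⁻ y in ball (0 : E) 2, ‖u₂ y‖ₑ ^ p ∂μ ≠ ⊤ := by
    rw [hI₁]
    exact ENNReal.mul_ne_top ENNReal.ofReal_ne_top hfin
  have hc1 : ENNReal.ofReal (s ^ p) ≠ 0 := by
    rw [Ne, ENNReal.ofReal_eq_zero, not_le]; positivity
  have hc2 : ENNReal.ofReal (s ^ (finrank ℝ E))⁻¹ ≠ 0 := by
    rw [Ne, ENNReal.ofReal_eq_zero, not_le]; positivity
  have hpc := hB Ω₂ u₂ hu₂s hu₂0 hfin₂ (by
    rw [hI₁, hI₂, ← hsp, ENNReal.ofReal_mul (by positivity), mul_assoc,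
      ENNReal.mul_lt_mul_iff_right hc1 ENNReal.ofReal_ne_top, mul_left_comm,
      ENNReal.mul_lt_mul_iff_right hc2 ENNReal.ofReal_ne_top, ENNReal.ofReal_mul (by norm_num),
      hKr']
    simpa using hz)
  have hadm₂ : Adm D₂ μ p β Ω₂ 0 1 := by
    unfold Adm
    rw [← hκ, ← hεκ]
    exact (pc_anti_right hU₂).trans hpc
  refine ⟨x₀ + r • z, ?_⟩
  rw [hΩ₂, adm_preimage μ h₂ hp0.le β Ω₁ z 0 hs0 1, hΩ₁,
    adm_preimage μ h₂ hp0.le β Ω x₀ _ hr _] at hadm₂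
  simpa [mul_comm] using hadm₂

end CapInradius
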